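import Pool.Agent.P8H18.RR.Stm

/-!
# Project AR: primes in the images of almost all affine mirror rules

For `n` with `2 L + 1` digits let `up L n` be the number formed by the first `L` digits in reversed order, modulo
`10 ^ L`; the last `L` digits form `n` modulo `10 ^ L`.  The number `n` is a palindrome iff `up L n = n` in `ZMod (10 ^ L)`
(if `n` has exactly `2 L + 1` digits).  Here: `up L n = u * n + v` with a unit `u` and an element `v` of
`ZMod (10 ^ L)`: the affine rule `(u, v)`; palindromes are the rule `(1, 0)`.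

Theorem (by project AR).  There are `c, kap > 0` such that for all large `L`, all `1 <= k <= c L ^ kap` and ALL affine maps
`(u0, v0)` modulo `10 ^ k` (in particular the identity: then the first `k` and the last `k` digits are mirrored exactly): for all but
at most the proportion `exp(-c L^kap)` of the lifts `(u, v)` of `(u0, v0)` to `ZMod (10 ^ L)` the sum of `log p` over the
primes `p` with `2 L + 1` digits and `up L p = u p + v` is `rho 10^(L+1)` up to `10^L exp(-c L^kap)`, `rho = 3/4` if `v` is a unit and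
`rho = 1` otherwise.

The packages are independent of each other.
-/

set_option autoImplicit false

namespace Pool.Agent.P8H18.AR

open Finset Pool.Agent.P8H18.RR

/-- the number formed by the first `L` of `2 L + 1` digits, in reversed order (place `2 L - i` becomes place `i`) -/
def up (L n : ℕ) : ℕ := ∑ i ∈ range L, dig n (2 * L - i) * 10 ^ i

/-- the primes with exactly `2 L + 1` digits -/
def PD (L : ℕ) : Finset ℕ := (Ico (10 ^ (2 * L)) (10 ^ (2 * L + 1))).filter Nat.Prime

/-- the proportion of the invertible last digits that lead to a first digit different from zero -/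
noncomputable def rho (L : ℕ) (v : ZMod (10 ^ L)) : ℝ := by
  classical exact if IsUnit v then 3 / 4 else 1

/-! ### Statements -/

/-- (PNTE) the prime number theorem with an error term `exp(-c (log x)^kap)`.

(package PNTE) `pnte : ∃ kap : ℝ, 0 < kap ∧ kap ≤ 1 / 2 ∧ S_PNTE kap`, PREFERABLY `pnte : S_PNTE (1 / 2)` (the classical error term).
Proof.  With `kap = 1 / 24` it follows from the library: `Pool.Agent.N728.SP.S_SP` (file Pool/Agent/N728/SP/Def.lean, proved by
`Pool.Agent.N690.SP.SPT.t_SP` and the proof of `S_ZP`, `S_TEL` elsewhere in the library: for `exp(l^22) <= x <= exp(l^42)`,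
`|psiLog1 x - x| <= x exp(-3 l/4)`), by differencing `psiLog1` (the sum of `Lambda(n) log(x/n)`) at `x` and `x (1 + h)`.
For the classical `kap = 1/2` adapt `Pool.Agent.P8H90.RR.Pl` and `Psi` (written for the characters modulo `10^j`) to the Riemann zeta
function: the residue at `s = 1` gives the main term, the zero-free region of the zeta function with the bound of the logarithmic
derivative is as in `Pool.Agent.P8H13.GK.region` (for instance through a character: the zeros of `zeta` up to the line `re s = 1` are those of the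
function `(s - 1) zeta(s)`, `landau` and the inequality `3 + 4 cos + cos 2`; see also the files on the zeta function in the library). -/
def S_PNTE (kap : ℝ) : Prop := ∃ c C : ℝ, 0 < c ∧ 0 < C ∧ ∀ x : ℕ, 1 ≤ x →
  |∑ n ∈ Icc 1 x, ArithmeticFunction.vonMangoldt n - (x : ℝ)| ≤ C * x * Real.exp (-(c * (Real.log x) ^ kap))

/-- (APX) primes in residue classes modulo `10 ^ K` -/
def S_APX (kap : ℝ) : Prop := ∃ c C : ℝ, 0 < c ∧ 0 < C ∧ ∀ L K a x : ℕ, 1 ≤ L → 1 ≤ K →
  (10 : ℝ) ^ K ≤ Real.exp (c * (L : ℝ) ^ kap) → a.Coprime 10 → x ≤ 10 ^ (2 * L + 1) →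
    |∑ p ∈ (Icc 1 x).filter (fun p => p.Prime ∧ p ≡ a [MOD 10 ^ K]), Real.log p - (x : ℝ) / (Nat.totient (10 ^ K) : ℝ)| ≤
      C * 10 ^ (2 * L + 1) * Real.exp (-(c * (L : ℝ) ^ kap))

/-- (package APX, 120 lines) `apx : S_APXA`.
Proof.  Orthogonality of the characters modulo `10^K`; the nonprincipal ones by `S_PSI` with `D = 2 L + 1`
(`exp(-c sqrt D) <= exp(-c D^kap)` as `kap <= 1/2`, and `10^K <= exp(c L^kap) <= exp(c0 sqrt D)`), the principal one by `S_PNTE`: for `x <= 10^(2L+1)`:
if `x >= 10^(L)` then `log x >= L` and the error is `C x exp(-c L^kap)`; smaller `x` trivial.  The principal character counts the `n` prime to `10`: the powers of `2` and `5`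
contribute at most `C (L+1)^2`.  Prime powers: `psi - theta <= 2 sqrt x log x`.  Error terms `C (L+1)^2` and `C sqrt(10^(2L+1)) L` are absorbed. -/
def S_APXA : Prop := ∀ kap : ℝ, 0 < kap → kap ≤ 1 / 2 → S_PSI → S_PNTE kap → S_APX kap

/-- (MAIN) the primes that follow an affine rule modulo `10 ^ K` -/
def S_MAIN (kap : ℝ) : Prop := ∃ c C : ℝ, 0 < c ∧ 0 < C ∧ ∀ L K u v : ℕ, 1 ≤ K → K ≤ L →
  (10 : ℝ) ^ K ≤ Real.exp (c * (L : ℝ) ^ kap) → u.Coprime 10 →
    |∑ p ∈ (PD L).filter (fun p => up L p ≡ u * p + v [MOD 10 ^ K]), Real.log p -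
        (if v.Coprime 10 then 3 / 4 else 1) * 10 ^ (2 * L + 1) / 10 ^ K| ≤
      C * 10 ^ (2 * L + 1) * Real.exp (-(c * (L : ℝ) ^ kap))

/-- (package MAIN, 150 lines) `mainA : S_MAINA`.
Proof.  `N = 10^(2L+1)`.  `up L p = sum over i < K of dig p (2L - i) 10^i` modulo `10^K` (the terms `i >= K` vanish mod `10^K`), and the numbers
`n < N` for which this sum is a given `y < 10^K` with digits `y_0, ..., y_(K-1)` are those of the interval `[Y 10^(2L+1-K), (Y+1) 10^(2L+1-K))`,
`Y = sum y_i 10^(K-1-i) = n / 10^(2L+1-K)`; `n >= 10^(2L)` iff `y_0 <> 0`.  Split the sum over `p` according to `a = p mod 10^K` (coprime to `10`, as `p > 5`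
is prime); then `y = (u a + v) mod 10^K` is determined, and the sum over `p = a mod 10^K` in this interval is `10^(2L+1-K) / phi(10^K) + O(C N exp(-c L^kap))` by `S_APX`
if `y mod 10 <> 0`, and empty otherwise.  The number of `a mod 10^K`, `(a, 10) = 1`, with `u a + v` not divisible by `10` is
`phi(10^K)` if `(v, 10) <> 1` (then `u a + v = 0 mod 10` would make `v = - u a` prime to `10`) and `3/4 phi(10^K)` if `(v, 10) = 1` (exactly one of the four classes
of `a mod 10` is excluded).  The errors add up to at most `10^K 2 C N exp(-c0 L^kap) <= 2 C N exp(-(c0/2) L^kap)` with `c = c0/2`. -/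
def S_MAINA : Prop := ∀ kap : ℝ, 0 < kap → S_APX kap → S_MAIN kap

/-- (package TEN, 60 lines) `ten : S_TEN`.
Proof.  `n mod 10^L` and `up L n` determine all digits of `n < 10^(2L+1)` except the one at place `L` (`up L n < 10^L`, so its residue determines it and its digits).
(`Pool.Agent.P8H37.RR` proved the lemma dig_inj and S_BIJ for the project RR.) -/
def S_TEN : Prop := ∀ (L : ℕ) (x y : ZMod (10 ^ L)),
  ((range (10 ^ (2 * L + 1))).filter (fun n : ℕ => ((n : ZMod (10 ^ L)) = x) ∧ ((up L n : ℕ) : ZMod (10 ^ L)) = y)).card ≤ 10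

/-- (package VAR, 250 lines) `var : S_VAR`.  The variance over the affine rules.  `R = ZMod (10^L)`, `pi : R → ZMod (10^K)`.
Proof.  Put `M = 10^L`, `r = 10^K`, `f(u,v) = sum_x G x (u x + v)`, `fb(u,v) = (r/M) sum over (x, y) with pi y = pi u pi x + pi v of G x y`.
(1) `fb` is the conditional mean: for fixed classes `(u0, v0)` modulo `r` the mean of `f` over the lifts is `fb` (for each `u` and each
`(x, y)` exactly one `v` gives `y = u x + v`, and it lies over `v0` iff `pi y = u0 pi x + v0`).  Hence the sum of `(f - fb)^2` is `sum f^2 - sum fb^2`.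
(2) `mean f^2 = (1/M) sum over (x,y), (x',y') of G x y G x' y' K(x - x', y - y')`, `K(d, e)` = the proportion of the units `u` with `u d = e`:
it is `1 / phi(M/g)` if `gcd(d, M) = gcd(e, M) = g` and `0` otherwise.  Likewise `mean fb^2 = (r/M^2) sum G G' K_r(pi (x - x'), pi (y - y'))`.
(3) If neither `2^K` nor `5^K` divides `d = x - x'` then `K(d, e) = (r/M) K_r(pi d, pi e)`: the gcd's with `M` and with `r` agree, `M/g` and `r/g` are
divisible by `10`, and `phi(n) = (2/5) n` for `n = 2^a 5^b`, `a, b >= 1`.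
(4) So the variance is at most `(1/M)` times the sum of `G G' K` over the pairs with `2^K | d` or `5^K | d`.  There `K <= (5/2) g / M`; for given `(x, y)` and
`g` the number of `(x', y')` congruent to `(x, y)` modulo `g` is `(M/g)^2`, so the sum over these pairs of `G' K` is at most `B (5/2) M / g`.  Sum over
the divisors `g` of `10^L` divisible by `2^K` or by `5^K`: `sum 1/g <= 2^(-K) 2 (5/4) + 5^(-K) 2 (5/4) <= 5 * 2^(-K)`.
Total: mean of `(f - fb)^2` at most `(25/2) B 2^(-K) sum G`. -/
def S_VAR : Prop := ∀ (L K : ℕ) (_ : 1 ≤ K) (hKL : K ≤ L) [NeZero (10 ^ L)] [NeZero (10 ^ K)]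
  (G : ZMod (10 ^ L) → ZMod (10 ^ L) → ℝ) (B : ℝ), (∀ x y, 0 ≤ G x y) → (∀ x y, G x y ≤ B) →
  ∑ u : (ZMod (10 ^ L))ˣ, ∑ v : ZMod (10 ^ L),
    ((∑ x, G x (u * x + v)) - (10 : ℝ) ^ K / 10 ^ L *
      ∑ x, ∑ y, (if ZMod.castHom (pow_dvd_pow 10 hKL) (ZMod (10 ^ K)) y =
        ZMod.castHom (pow_dvd_pow 10 hKL) (ZMod (10 ^ K)) ((u : ZMod (10 ^ L)) * x + v) then G x y else 0)) ^ 2 ≤
    13 * B / 2 ^ K * (∑ x, ∑ y, G x y) * (10 ^ L) ^ 2

end Pool.Agent.P8H18.AR
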