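import Pool.Agent.P8H18.RR.Stm

/-!
# Project RR, the assembly: from the second moment to almost all rules
-/

set_option autoImplicit false

namespace Pool.Agent.P8H18.RR

open Finset

/-- the digit of `n` at place `i`, as an element of `Fin 10` -/
def dg (n i : ℕ) : Fin 10 := ⟨n / 10 ^ i % 10, Nat.mod_lt _ (by norm_num)⟩

lemma dg_val (n i : ℕ) : ((dg n i : Fin 10) : ℕ) = dig n i := rfl

/-- the primes with `2 L + 1` digits, last digit `e` and first digit `f` -/
def PP (L e f : ℕ) : Finset ℕ :=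
  (range (10 ^ (2 * L + 1))).filter (fun n => n.Prime ∧ dig n 0 = e ∧ dig n (2 * L) = f)

/-- those which follow the rule `s` -/
def PR (L : ℕ) (s : Fin (L - 1) → Equiv.Perm (Fin 10)) (e f : ℕ) : Finset ℕ :=
  (PP L e f).filter (fun n => ∀ i : Fin (L - 1), dg n (2 * L - (i + 1)) = s i (dg n (i + 1)))

/-- the rule has the expected number of primes -/
def Good (c : ℝ) (L : ℕ) (s : Fin (L - 1) → Equiv.Perm (Fin 10)) : Prop :=
  ∀ e f : ℕ, e < 10 → f < 10 →
    |((PR L s e f).card : ℝ) - ((PP L e f).card : ℝ) / 10 ^ (L - 1)| ≤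
      10 ^ L * Real.exp (-(c * (√(L : ℝ) / Real.log L)))

/-- lower digits -/
def xl (L n : ℕ) : Fin (L - 1) → Fin 10 := fun i => dg n (i + 1)
/-- upper digits -/
def yl (L n : ℕ) : Fin (L - 1) → Fin 10 := fun i => dg n (2 * L - (i + 1))

/-- the number of primes with given digits -/
noncomputable def gg (L e f : ℕ) (x y : Fin (L - 1) → Fin 10) : ℝ :=
  (((PP L e f).filter (fun n => xl L n = x ∧ yl L n = y)).card : ℝ)

lemma sum_gg (L e f : ℕ) (F : (Fin (L - 1) → Fin 10) → (Fin (L - 1) → Fin 10) → ℝ) :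
    ∑ x, ∑ y, gg L e f x y * F x y = ∑ n ∈ PP L e f, F (xl L n) (yl L n) := by
  have h1 : ∀ x y, gg L e f x y * F x y =
      ∑ n ∈ PP L e f, if xl L n = x ∧ yl L n = y then F x y else 0 := by
    intro x y
    unfold gg
    rw [← sum_filter, sum_const, nsmul_eq_mul]
  simp only [h1]
  have h2 : ∀ x, ∑ y, ∑ n ∈ PP L e f, (if xl L n = x ∧ yl L n = y then F x y else 0) =
      ∑ n ∈ PP L e f, if xl L n = x then F x (yl L n) else 0 := by
    intro x
    rw [sum_comm]
    refine sum_congr rfl fun n _ => ?_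
    by_cases h : xl L n = x
    · simp [h]
    · simp [h]
  simp only [h2]
  rw [sum_comm]
  refine sum_congr rfl fun n _ => ?_
  simp

lemma gg_le (hB : S_BIJ) {L e f : ℕ} (hL : 1 ≤ L) (x y : Fin (L - 1) → Fin 10) : |gg L e f x y| ≤ 10 := by
  unfold gg
  rw [abs_of_nonneg (by positivity)]
  have h := hB L e f hL x y
  have h2 : ((PP L e f).filter (fun n => xl L n = x ∧ yl L n = y)).card ≤ 10 := by
    refine (card_le_card ?_).trans h
    intro n hn
    simp only [PP, mem_filter] at hn ⊢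
    obtain ⟨⟨h1, h2, h3, h4⟩, h5, h6⟩ := hn
    refine ⟨h1, h3, h4, fun i => ?_, fun i => ?_⟩
    · rw [← h5]; rfl
    · rw [← h6]; rfl
  exact_mod_cast h2

lemma cnt_eq (L e f : ℕ) (s : Fin (L - 1) → Equiv.Perm (Fin 10)) :
    ∑ x, gg L e f x (fun i => s i (x i)) = ((PR L s e f).card : ℝ) := by
  have h := sum_gg L e f (fun x y => if y = (fun i => s i (x i)) then 1 else 0)
  have h1 : ∀ x, ∑ y, gg L e f x y * (if y = (fun i => s i (x i)) then (1 : ℝ) else 0) =
      gg L e f x (fun i => s i (x i)) := by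
    intro x
    simp
  simp only [h1] at h
  rw [h, ← sum_filter, sum_const, nsmul_eq_mul, mul_one]
  congr 2
  unfold PR
  refine filter_congr fun n _ => ?_
  rw [funext_iff]
  rfl

lemma tot_eq (L e f : ℕ) : ∑ x, ∑ y, gg L e f x y = ((PP L e f).card : ℝ) := by
  have h := sum_gg L e f (fun _ _ => 1)
  simp only [mul_one, sum_const, nsmul_eq_mul] at h
  exact h

/-- the correlations in terms of `gg` -/
lemma corr (L e f : ℕ) (S : Finset (Fin (L - 1))) (x' y' : Fin (L - 1) → Fin 10) :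
    ∑ x, ∑ y, gg L e f x y * ∏ i ∈ S, (aa (x i) (x' i) * aa (y i) (y' i)) =
    ∑ n ∈ (range (10 ^ (2 * L + 1))).filter (fun n => n.Prime ∧ dig n 0 = e ∧ dig n (2 * L) = f),
      ∏ i ∈ S.image (fun i : Fin (L - 1) => (i : ℕ) + 1),
        (((if dig n i = (if h : i - 1 < L - 1 then ((x' ⟨i - 1, h⟩ : Fin 10) : ℕ) else 0) then (1 : ℝ) else 0) - 1 / 10) *
        ((if dig n (2 * L - i) = (if h : i - 1 < L - 1 then ((y' ⟨i - 1, h⟩ : Fin 10) : ℕ) else 0) then (1 : ℝ) else 0)
          - 1 / 10)) := by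
  rw [sum_gg L e f (fun x y => ∏ i ∈ S, (aa (x i) (x' i) * aa (y i) (y' i)))]
  refine sum_congr rfl fun n _ => ?_
  rw [prod_image]
  · refine prod_congr rfl fun i _ => ?_
    simp only [add_tsub_cancel_right, Fin.is_lt, dif_pos, Fin.eta]
    unfold aa xl yl
    congr 2
    · congr 1
      simp only [Fin.ext_iff, dg_val]
    · congr 1
      simp only [Fin.ext_iff, dg_val]
  · intro i _ j _ hij
    simp only at hij
    exact Fin.ext (by omega)

lemma t_large (A : ℝ) : ∃ L0 : ℕ, ∀ L : ℕ, L0 ≤ L → A ≤ √(L : ℝ) / Real.log L := by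
  have h0 : Filter.Tendsto (fun x : ℝ => √x / Real.log x) Filter.atTop Filter.atTop := by
    have h1 : (fun x : ℝ => Real.log x) =o[Filter.atTop] (fun x : ℝ => x ^ (1 / 2 : ℝ)) :=
      isLittleO_log_rpow_atTop (by norm_num)
    have h2 := h1.tendsto_div_nhds_zero
    have h3 : Filter.Tendsto (fun x : ℝ => Real.log x / x ^ (1 / 2 : ℝ)) Filter.atTop (nhdsWithin 0 (Set.Ioi 0)) := by
      rw [tendsto_nhdsWithin_iff]
      refine ⟨h2, ?_⟩
      filter_upwards [Filter.eventually_gt_atTop 1] with x hx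
      have : 0 < Real.log x := Real.log_pos hx
      exact Set.mem_Ioi.2 (div_pos this (Real.rpow_pos_of_pos (by linarith) _))
    refine (h3.inv_tendsto_nhdsGT_zero).congr' ?_
    filter_upwards [Filter.eventually_gt_atTop 1] with x hx
    simp only [Pi.inv_apply]
    rw [inv_div, Real.sqrt_eq_rpow]
  have h1 := (h0.comp tendsto_natCast_atTop_atTop).eventually_ge_atTop A
  obtain ⟨L0, h⟩ := Filter.eventually_atTop.1 h1
  exact ⟨L0, fun L hL => h L hL⟩

open Classical in
/-- **almost all rules** -/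
theorem fin (hW : S_WAL) (hM : S_MOM) (hB : S_BIJ) : ∃ c : ℝ, 0 < c ∧ ∃ L0 : ℕ, ∀ L : ℕ, L0 ≤ L →
    ∀ Sg : Finset (Equiv.Perm (Fin 10)), Sg.Nonempty → TwoTr Sg →
    (((Fintype.piFinset (fun _ : Fin (L - 1) => Sg)).filter (fun s => ¬ Good c L s)).card : ℝ) ≤
      (Sg.card : ℝ) ^ (L - 1) * Real.exp (-(c * (√(L : ℝ) / Real.log L))) := by
  obtain ⟨c1, C1, hc1, hC1, L1, hWal⟩ := hW
  set c' := c1 / 4 with hc'
  have hc'0 : 0 < c' := by positivity
  obtain ⟨L2, hL2⟩ := t_large (max 1 (Real.log (900 + 10000 * C1) / (5 / 4 * c')))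
  refine ⟨c' / 4, by positivity, max (max L1 L2) 12, fun L hL Sg hSg hTr => ?_⟩
  have hL1 : L1 ≤ L := ((le_max_left _ _).trans (le_max_left _ _)).trans hL
  have hL2' : L2 ≤ L := ((le_max_right _ _).trans (le_max_left _ _)).trans hL
  have hL12 : 12 ≤ L := (le_max_right _ _).trans hL
  have hLr : (12 : ℝ) ≤ L := by exact_mod_cast hL12
  have hL0 : (0 : ℝ) < L := by linarith
  have hlog12 : Real.log 12 ≤ Real.log L := Real.log_le_log (by norm_num) hLr
  have hlog1 : 1 ≤ Real.log L := by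
    rw [Real.le_log_iff_exp_le hL0]; linarith [Real.exp_one_lt_d9]
  have hlog0 : 0 < Real.log L := by linarith
  set t := √(L : ℝ) / Real.log L with ht
  have htmax := hL2 L hL2'
  have ht1 : 1 ≤ t := (le_max_left _ _).trans htmax
  have ht2 : Real.log (900 + 10000 * C1) ≤ 5 / 4 * c' * t := by
    have := (le_max_right _ _).trans htmax
    rw [div_le_iff₀ (by positivity)] at this
    linarith
  have hts : t * Real.log L = √(L : ℝ) := by rw [ht]; field_simp
  have hts' : t ≤ √(L : ℝ) := by rw [← hts]; exact le_mul_of_one_le_right (by linarith) hlog1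
  set K := ⌊c' * t⌋₊ with hK
  have hKt : (K : ℝ) ≤ c' * t := Nat.floor_le (by positivity)
  have hKt' : c' * t < K + 1 := Nat.lt_floor_add_one _
  set W : ℝ := C1 * 10 ^ (2 * L + 1) * Real.exp (-(c1 * √(L : ℝ))) with hWd
  have hW0 : 0 ≤ W := by positivity
  set δ : ℝ := 10 ^ L * Real.exp (-(c' / 4 * t)) with hδ
  have hδ0 : 0 < δ := by positivity
  set V : ℝ := (Sg.card : ℝ) ^ (L - 1) * (10 ^ 2 * 100 ^ (L - 1) / 9 ^ K + ((((L - 1 : ℕ) : ℝ) + 1) * 12) ^ K * (10 * W)) with hV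
  have hSg0 : (0 : ℝ) < (Sg.card : ℝ) ^ (L - 1) := by
    have : (0 : ℝ) < Sg.card := by exact_mod_cast hSg.card_pos
    positivity
  -- second moment
  have hmom : ∀ e f : ℕ, e < 10 → f < 10 →
      ∑ s ∈ Fintype.piFinset (fun _ : Fin (L - 1) => Sg),
        (((PR L s e f).card : ℝ) - ((PP L e f).card : ℝ) / 10 ^ (L - 1)) ^ 2 ≤ V := by
    intro e f he hf
    have h := hM (L - 1) Sg hSg hTr (gg L e f) K 10 W (by norm_num) hW0 (gg_le hB (by omega)) (by
      intro S hS hSK x' y'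
      rw [corr]
      refine hWal L hL1 (S.image (fun i : Fin (L - 1) => (i : ℕ) + 1)) (hS.image _) ?_ ?_ _ _ e f ?_ ?_ he hf
      · intro j hj
        rw [mem_image] at hj
        obtain ⟨i, _, rfl⟩ := hj
        rw [mem_Ioo]
        have := i.2
        omega
      · have h1 : ((S.image (fun i : Fin (L - 1) => (i : ℕ) + 1)).card : ℝ) ≤ K := by
          exact_mod_cast card_image_le.trans hSK
        refine h1.trans (hKt.trans ?_)
        rw [mul_div_assoc]
        have : c' ≤ c1 := by rw [hc']; linarith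
        gcongr
      · intro i
        split
        · exact Fin.is_lt _
        · norm_num
      · intro i
        split
        · exact Fin.is_lt _
        · norm_num)
    simp only [cnt_eq, tot_eq] at h
    exact h
  -- Chebyshev
  have hcheb : ∀ e f : ℕ, e < 10 → f < 10 →
      (((Fintype.piFinset (fun _ : Fin (L - 1) => Sg)).filter (fun s =>
        δ < |((PR L s e f).card : ℝ) - ((PP L e f).card : ℝ) / 10 ^ (L - 1)|)).card : ℝ) * δ ^ 2 ≤ V := by
    intro e f he hf
    refine le_trans ?_ (hmom e f he hf)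
    rw [← nsmul_eq_mul, ← sum_const]
    refine (sum_le_sum (fun s hs => ?_)).trans (sum_le_sum_of_subset_of_nonneg (filter_subset _ _)
      fun s _ _ => sq_nonneg _)
    rw [mem_filter] at hs
    rw [← sq_abs (((PR L s e f).card : ℝ) - ((PP L e f).card : ℝ) / 10 ^ (L - 1))]
    exact pow_le_pow_left₀ hδ0.le hs.2.le 2
  -- the union
  have hun : ((Fintype.piFinset (fun _ : Fin (L - 1) => Sg)).filter (fun s => ¬ Good (c' / 4) L s)) ⊆
      (range 10 ×ˢ range 10).biUnion (fun ef => (Fintype.piFinset (fun _ : Fin (L - 1) => Sg)).filter (fun s =>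
        δ < |((PR L s ef.1 ef.2).card : ℝ) - ((PP L ef.1 ef.2).card : ℝ) / 10 ^ (L - 1)|)) := by
    intro s hs
    rw [mem_filter] at hs
    obtain ⟨h1, h2⟩ := hs
    unfold Good at h2
    push Not at h2
    obtain ⟨e, f, he, hf, h3⟩ := h2
    rw [mem_biUnion]
    exact ⟨(e, f), mem_product.2 ⟨mem_range.2 he, mem_range.2 hf⟩, mem_filter.2 ⟨h1, h3⟩⟩
  have hcard : (((Fintype.piFinset (fun _ : Fin (L - 1) => Sg)).filter (fun s => ¬ Good (c' / 4) L s)).card : ℝ) * δ ^ 2 ≤
      100 * V := by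
    have h1 := (card_le_card hun).trans card_biUnion_le
    have h2 : (((Fintype.piFinset (fun _ : Fin (L - 1) => Sg)).filter (fun s => ¬ Good (c' / 4) L s)).card : ℝ) ≤
      ∑ ef ∈ range 10 ×ˢ range 10, (((Fintype.piFinset (fun _ : Fin (L - 1) => Sg)).filter (fun s =>
        δ < |((PR L s ef.1 ef.2).card : ℝ) - ((PP L ef.1 ef.2).card : ℝ) / 10 ^ (L - 1)|)).card : ℝ) := by
      exact_mod_cast h1
    calc _ ≤ (∑ ef ∈ range 10 ×ˢ range 10, (((Fintype.piFinset (fun _ : Fin (L - 1) => Sg)).filter (fun s =>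
        δ < |((PR L s ef.1 ef.2).card : ℝ) - ((PP L ef.1 ef.2).card : ℝ) / 10 ^ (L - 1)|)).card : ℝ)) * δ ^ 2 := by
          gcongr
      _ ≤ ∑ ef ∈ range 10 ×ˢ range 10, V := by
          rw [sum_mul]
          refine sum_le_sum fun ef hef => ?_
          rw [mem_product, mem_range, mem_range] at hef
          exact hcheb ef.1 ef.2 hef.1 hef.2
      _ = 100 * V := by
          rw [sum_const, card_product, card_range, nsmul_eq_mul]
          norm_num
  -- numerics
  have hδ2 : δ ^ 2 = 100 ^ L * Real.exp (-(c' / 2 * t)) := by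
    rw [hδ, mul_pow, ← pow_mul, mul_comm L 2, pow_mul, ← Real.exp_nat_mul]
    norm_num
    ring
  have h9 : 1 / (9 : ℝ) ^ K ≤ 9 * Real.exp (-(2 * c' * t)) := by
    rw [div_le_iff₀ (by positivity)]
    have e1 : (9 : ℝ) ^ (K + 1) ≥ Real.exp (2 * c' * t) := by
      have e2 : Real.exp 2 ≤ 9 := by
        have := Real.exp_one_lt_d9
        have h3 : Real.exp 2 = Real.exp 1 * Real.exp 1 := by rw [← Real.exp_add]; norm_num
        rw [h3]
        nlinarith [Real.exp_pos 1]
      calc (9 : ℝ) ^ (K + 1) ≥ Real.exp 2 ^ (K + 1) := pow_le_pow_left₀ (Real.exp_pos _).le e2 _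
        _ = Real.exp (2 * (K + 1)) := by rw [← Real.exp_nat_mul]; congr 1; push_cast; ring
        _ ≥ Real.exp (2 * c' * t) := Real.exp_le_exp.2 (by nlinarith)
    rw [pow_succ] at e1
    rw [Real.exp_neg]
    have h5 : 0 < Real.exp (2 * c' * t) := Real.exp_pos _
    field_simp
    nlinarith
  have h12 : ((((L - 1 : ℕ) : ℝ) + 1) * 12) ^ K ≤ Real.exp (2 * c' * √(L : ℝ)) := by
    have e1 : (((L - 1 : ℕ) : ℝ) + 1) = L := by
      have : (L - 1) + 1 = L := by omega
      exact_mod_cast this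
    rw [e1]
    have e2 : (L : ℝ) * 12 ≤ Real.exp (2 * Real.log L) := by
      rw [two_mul, Real.exp_add, Real.exp_log hL0]
      nlinarith
    calc ((L : ℝ) * 12) ^ K ≤ Real.exp (2 * Real.log L) ^ K := pow_le_pow_left₀ (by positivity) e2 _
      _ = Real.exp (K * (2 * Real.log L)) := by rw [← Real.exp_nat_mul]
      _ ≤ Real.exp (2 * c' * √(L : ℝ)) := by
        rw [Real.exp_le_exp, ← hts]
        nlinarith
  have hVle : V ≤ (Sg.card : ℝ) ^ (L - 1) * (100 ^ L * (9 * Real.exp (-(2 * c' * t)) +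
      100 * C1 * Real.exp (-(2 * c' * t)))) := by
    rw [hV]
    apply mul_le_mul_of_nonneg_left _ hSg0.le
    have e1 : (10 : ℝ) ^ 2 * 100 ^ (L - 1) = 100 ^ L := by
      have : L = (L - 1) + 1 := by omega
      conv_rhs => rw [this, pow_succ]
      ring
    rw [e1, mul_add]
    apply add_le_add
    · calc (100 : ℝ) ^ L / 9 ^ K = 100 ^ L * (1 / 9 ^ K) := by ring
        _ ≤ _ := by gcongr
    · calc ((((L - 1 : ℕ) : ℝ) + 1) * 12) ^ K * (10 * W) ≤ Real.exp (2 * c' * √(L : ℝ)) * (10 * W) := by gcongr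
        _ = 100 ^ L * (100 * C1 * (Real.exp (2 * c' * √(L : ℝ)) * Real.exp (-(c1 * √(L : ℝ))))) := by
          rw [hWd, pow_succ, pow_mul]; norm_num; ring
        _ ≤ 100 ^ L * (100 * C1 * Real.exp (-(2 * c' * t))) := by
          gcongr
          rw [← Real.exp_add, Real.exp_le_exp]
          have : c1 = 4 * c' := by rw [hc']; ring
          rw [this]
          nlinarith
  have hfin : 100 * V ≤ (Sg.card : ℝ) ^ (L - 1) * Real.exp (-(c' / 4 * t)) * δ ^ 2 := by
    rw [hδ2]
    calc 100 * V ≤ 100 * ((Sg.card : ℝ) ^ (L - 1) * (100 ^ L * (9 * Real.exp (-(2 * c' * t)) +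
          100 * C1 * Real.exp (-(2 * c' * t))))) := by gcongr
      _ = (Sg.card : ℝ) ^ (L - 1) * 100 ^ L * ((900 + 10000 * C1) * Real.exp (-(2 * c' * t))) := by ring
      _ ≤ (Sg.card : ℝ) ^ (L - 1) * 100 ^ L * (Real.exp (5 / 4 * c' * t) * Real.exp (-(2 * c' * t))) := by
          gcongr
          rw [← Real.log_le_iff_le_exp (by positivity)]
          exact ht2
      _ = (Sg.card : ℝ) ^ (L - 1) * Real.exp (-(c' / 4 * t)) * (100 ^ L * Real.exp (-(c' / 2 * t))) := by
          rw [← Real.exp_add]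
          have : Real.exp (5 / 4 * c' * t + -(2 * c' * t)) = Real.exp (-(c' / 4 * t)) * Real.exp (-(c' / 2 * t)) := by
            rw [← Real.exp_add]; congr 1; ring
          rw [this]; ring
  have := hcard.trans hfin
  exact le_of_mul_le_mul_right this (by positivity)

/-- the asymptotic formula for the good rules -/
theorem asym (hP : S_PNTM) {c : ℝ} (hc : 0 < c) : ∀ ε : ℝ, 0 < ε → ∃ L1 : ℕ, ∀ L : ℕ, L1 ≤ L →
    ∀ s : Fin (L - 1) → Equiv.Perm (Fin 10), Good c L s →
    ∀ e f : ℕ, e ∈ ({1, 3, 7, 9} : Finset ℕ) → 1 ≤ f → f ≤ 9 →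
      |((PR L s e f).card : ℝ) / (5 / 4 * 10 ^ L / (L * Real.log 10)) - 1| ≤ ε := by
  intro ε hε
  have hlog10 : 0 < Real.log 10 := Real.log_pos (by norm_num)
  -- the logarithms
  have hlo : ∃ L2 : ℕ, ∀ L : ℕ, L2 ≤ L → 2 * Real.log L ^ 2 ≤ c * √(L : ℝ) := by
    have h1 : (fun x : ℝ => Real.log x ^ 2) =o[Filter.atTop] id := Real.isLittleO_pow_log_id_atTop
    have h2 := h1.bound (show (0 : ℝ) < c / 8 by positivity)
    have h3 : Filter.Tendsto (fun L : ℕ => √(L : ℝ)) Filter.atTop Filter.atTop :=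
      Real.tendsto_sqrt_atTop.comp tendsto_natCast_atTop_atTop
    obtain ⟨L2, h4⟩ := Filter.eventually_atTop.1 (h3.eventually h2)
    refine ⟨L2, fun L hL => ?_⟩
    have h5 := h4 L hL
    rw [id, Real.norm_eq_abs, Real.norm_eq_abs, abs_of_nonneg (sq_nonneg _), abs_of_nonneg (Real.sqrt_nonneg _),
      Real.log_sqrt (by positivity)] at h5
    nlinarith
  have hfin : ∀ e f : ℕ, e ∈ ({1, 3, 7, 9} : Finset ℕ) → 1 ≤ f → f ≤ 9 → ∃ L3 : ℕ, ∀ L : ℕ, L3 ≤ L →
      |((PP L e f).card : ℝ) / (10 ^ (2 * L) / (8 * L * Real.log 10)) - 1| ≤ ε / 2 := by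
    intro e f he hf1 hf9
    have h1 := hP e f he hf1 hf9
    rw [Metric.tendsto_atTop] at h1
    obtain ⟨L3, h2⟩ := h1 (ε / 2) (by positivity)
    exact ⟨L3, fun L hL => by have := h2 L hL; rw [Real.dist_eq] at this; exact this.le⟩
  obtain ⟨L2, hL2⟩ := hlo
  choose! G hG using hfin
  obtain ⟨L4, hL4⟩ := exists_nat_ge (2 * Real.log 10 / ε)
  refine ⟨max (max L2 L4) (max 2 (∑ e ∈ range 10, ∑ f ∈ range 10, G e f)), fun L hL s hs e f he hf1 hf9 => ?_⟩
  have hLL2 : L2 ≤ L := ((le_max_left _ _).trans (le_max_left _ _)).trans hL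
  have hLL4 : L4 ≤ L := ((le_max_right _ _).trans (le_max_left _ _)).trans hL
  have hL2' : 2 ≤ L := ((le_max_left _ _).trans (le_max_right _ _)).trans hL
  have he10 : e < 10 := by
    simp only [mem_insert, mem_singleton] at he
    omega
  have hLG : G e f ≤ L := by
    refine le_trans ?_ (((le_max_right _ _).trans (le_max_right _ _)).trans hL)
    calc G e f ≤ ∑ f ∈ range 10, G e f :=
          single_le_sum (f := fun f => G e f) (fun _ _ => Nat.zero_le _) (mem_range.2 (by omega))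
      _ ≤ _ := single_le_sum (f := fun e => ∑ f ∈ range 10, G e f) (fun _ _ => Nat.zero_le _) (mem_range.2 he10)
  have hLr : (2 : ℝ) ≤ L := by exact_mod_cast hL2'
  have hL0 : (0 : ℝ) < L := by linarith
  have hlogL : 0 < Real.log L := Real.log_pos (by linarith)
  have h1 := hs e f he10 (by omega)
  have h2 := hG e f he hf1 hf9 L hLG
  set M : ℝ := 5 / 4 * 10 ^ L / (L * Real.log 10) with hM
  have hM0 : 0 < M := by positivity
  have h3 : ((PP L e f).card : ℝ) / 10 ^ (L - 1) = ((PP L e f).card : ℝ) / (10 ^ (2 * L) / (8 * L * Real.log 10)) * M := by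
    have e1 : (10 : ℝ) ^ L = 10 ^ (L - 1) * 10 := by
      rw [← pow_succ]; congr 1; omega
    have e2 : (10 : ℝ) ^ (2 * L) = 10 ^ L * (10 ^ (L - 1) * 10) := by
      rw [two_mul, pow_add, ← e1]
    rw [hM, e2]
    field_simp
    ring
  have h4 : Real.exp (-(c * (√(L : ℝ) / Real.log L))) ≤ 1 / (L : ℝ) ^ 2 := by
    have e1 : 2 * Real.log L ≤ c * (√(L : ℝ) / Real.log L) := by
      rw [← mul_div_assoc, le_div_iff₀ hlogL]
      refine le_trans (le_of_eq ?_) (hL2 L hLL2)
      ring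
    have e2 : Real.exp (-(2 * Real.log L)) = 1 / (L : ℝ) ^ 2 := by
      rw [Real.exp_neg, two_mul, Real.exp_add, Real.exp_log hL0, sq, one_div]
    rw [← e2]
    exact Real.exp_le_exp.2 (neg_le_neg e1)
  have h5 : 10 ^ L * Real.exp (-(c * (√(L : ℝ) / Real.log L))) ≤ ε / 2 * M := by
    have e1 : 2 * Real.log 10 / ε ≤ L := hL4.trans (by exact_mod_cast hLL4)
    rw [div_le_iff₀ hε] at e1
    calc 10 ^ L * Real.exp (-(c * (√(L : ℝ) / Real.log L))) ≤ 10 ^ L * (1 / (L : ℝ) ^ 2) := by gcongr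
      _ ≤ ε / 2 * M := by
        have e3 : Real.log 10 ≤ ε / 2 * (5 / 4) * L := by nlinarith
        have e4 : (1 : ℝ) / (L : ℝ) ^ 2 ≤ ε / 2 * (5 / 4) / (L * Real.log 10) := by
          rw [div_le_div_iff₀ (by positivity) (by positivity)]
          have := mul_le_mul_of_nonneg_left e3 hL0.le
          linarith
        calc (10 : ℝ) ^ L * (1 / (L : ℝ) ^ 2) ≤ 10 ^ L * (ε / 2 * (5 / 4) / (L * Real.log 10)) := by gcongr
          _ = ε / 2 * M := by rw [hM]; ring
  have h6 : ((PR L s e f).card : ℝ) / M - 1 =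
      (((PR L s e f).card : ℝ) - ((PP L e f).card : ℝ) / 10 ^ (L - 1)) / M +
      (((PP L e f).card : ℝ) / (10 ^ (2 * L) / (8 * L * Real.log 10)) - 1) := by
    rw [h3]
    field_simp
    ring
  rw [h6]
  refine (abs_add_le _ _).trans ?_
  have h7 : |(((PR L s e f).card : ℝ) - ((PP L e f).card : ℝ) / 10 ^ (L - 1)) / M| ≤ ε / 2 := by
    rw [abs_div, abs_of_pos hM0, div_le_iff₀ hM0]
    exact h1.trans h5
  linarith

end Pool.Agent.P8H18.RR
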