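import Pool.Agent.P8H18.RR.Stm2

/-!
# Project AR, the assembly
-/

set_option autoImplicit false

namespace Pool.Agent.P8H18.AR

open Finset Pool.Agent.P8H18.RR

/-- the primes that follow the affine rule `(u, v)` -/
noncomputable def PF (L : ℕ) (u v : ZMod (10 ^ L)) : Finset ℕ :=
  (PD L).filter (fun p => ((up L p : ℕ) : ZMod (10 ^ L)) = u * p + v)

/-- the rule is good -/
def Good (kap c : ℝ) (L : ℕ) (u v : ZMod (10 ^ L)) : Prop :=
  |∑ p ∈ PF L u v, Real.log p - rho L v * 10 ^ (L + 1)| ≤ 10 ^ L * Real.exp (-(c * (L : ℝ) ^ kap))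

/-- the weight -/
noncomputable def GG (L : ℕ) (x y : ZMod (10 ^ L)) : ℝ :=
  ∑ p ∈ (PD L).filter (fun p : ℕ => ((p : ZMod (10 ^ L)) = x) ∧ ((up L p : ℕ) : ZMod (10 ^ L)) = y), Real.log p

lemma log_PD {L p : ℕ} (hp : p ∈ PD L) : 0 ≤ Real.log p ∧ Real.log p ≤ 3 * (2 * L + 1) ∧
    2 * L * Real.log 10 ≤ Real.log p ∧ Real.log p ≤ (2 * L + 1) * Real.log 10 := by
  unfold PD at hp
  rw [mem_filter, mem_Ico] at hp
  obtain ⟨⟨h1, h2⟩, _⟩ := hp
  have h10 : 0 < Real.log 10 := Real.log_pos (by norm_num)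
  have h103 : Real.log 10 ≤ 3 := by
    rw [Real.log_le_iff_le_exp (by norm_num)]
    have : Real.exp 3 = Real.exp 1 ^ 3 := by rw [← Real.exp_nat_mul]; norm_num
    rw [this]
    have h := Real.exp_one_gt_d9
    have : (2.7 : ℝ) ^ 3 ≤ Real.exp 1 ^ 3 := pow_le_pow_left₀ (by norm_num) (by linarith) 3
    norm_num at this ⊢
    linarith
  have hp0 : (0 : ℝ) < p := by
    have : 0 < 10 ^ (2 * L) := by positivity
    exact_mod_cast lt_of_lt_of_le this h1
  have a1 : 2 * L * Real.log 10 ≤ Real.log p := by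
    have : Real.log ((10 : ℝ) ^ (2 * L)) ≤ Real.log p := Real.log_le_log (by positivity) (by exact_mod_cast h1)
    rw [Real.log_pow] at this
    push_cast at this
    exact this
  have a2 : Real.log p ≤ (2 * L + 1) * Real.log 10 := by
    have : Real.log p ≤ Real.log ((10 : ℝ) ^ (2 * L + 1)) := Real.log_le_log hp0 (by exact_mod_cast h2.le)
    rw [Real.log_pow] at this
    push_cast at this
    exact this
  have hL0 : (0 : ℝ) ≤ L := Nat.cast_nonneg _
  refine ⟨le_trans (by positivity) a1, a2.trans ?_, a1, a2⟩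
  nlinarith

lemma GG_nonneg {L : ℕ} (x y : ZMod (10 ^ L)) : 0 ≤ GG L x y :=
  sum_nonneg fun p hp => (log_PD (mem_filter.1 hp).1).1

lemma GG_le (hT : S_TEN) {L : ℕ} (x y : ZMod (10 ^ L)) : GG L x y ≤ 30 * (2 * L + 1) := by
  unfold GG
  have h1 : ((PD L).filter (fun p : ℕ => ((p : ZMod (10 ^ L)) = x) ∧ ((up L p : ℕ) : ZMod (10 ^ L)) = y)).card ≤ 10 := by
    refine (card_le_card ?_).trans (hT L x y)
    intro p hp
    rw [mem_filter] at hp ⊢
    refine ⟨?_, hp.2⟩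
    have := hp.1
    unfold PD at this
    rw [mem_filter, mem_Ico] at this
    exact mem_range.2 this.1.2
  have h2 := sum_le_card_nsmul ((PD L).filter (fun p : ℕ => ((p : ZMod (10 ^ L)) = x) ∧
    ((up L p : ℕ) : ZMod (10 ^ L)) = y)) (fun p : ℕ => Real.log p) (3 * (2 * (L : ℝ) + 1))
    (fun p hp => (log_PD (L := L) (mem_filter.1 hp).1).2.1)
  refine h2.trans ?_
  rw [nsmul_eq_mul]
  have h3 : (((PD L).filter (fun p : ℕ => ((p : ZMod (10 ^ L)) = x) ∧ ((up L p : ℕ) : ZMod (10 ^ L)) = y)).card : ℝ) ≤ 10 := by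
    exact_mod_cast h1
  have hL0 : (0 : ℝ) ≤ L := Nat.cast_nonneg _
  calc _ ≤ 10 * (3 * (2 * (L : ℝ) + 1)) := by gcongr
    _ = _ := by ring

/-- sums over all classes -/
lemma sum_GG (L : ℕ) [NeZero (10 ^ L)] (P : ZMod (10 ^ L) → ZMod (10 ^ L) → Prop) [∀ x y, Decidable (P x y)] :
    ∑ x, ∑ y, (if P x y then GG L x y else 0) =
      ∑ p ∈ (PD L).filter (fun p : ℕ => P (p : ZMod (10 ^ L)) ((up L p : ℕ) : ZMod (10 ^ L))), Real.log p := by
  have h1 : ∀ x y, (if P x y then GG L x y else 0) =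
      ∑ p ∈ PD L, if ((p : ZMod (10 ^ L)) = x) ∧ ((up L p : ℕ) : ZMod (10 ^ L)) = y then
        (if P x y then Real.log p else 0) else 0 := by
    intro x y
    unfold GG
    rw [← sum_filter]
    split_ifs
    · rfl
    · rw [sum_const_zero]
  simp only [h1]
  have h2 : ∀ x, ∑ y, ∑ p ∈ PD L, (if ((p : ZMod (10 ^ L)) = x) ∧ ((up L p : ℕ) : ZMod (10 ^ L)) = y then
        (if P x y then Real.log p else 0) else 0) =
      ∑ p ∈ PD L, if (p : ZMod (10 ^ L)) = x then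
        (if P x ((up L p : ℕ) : ZMod (10 ^ L)) then Real.log p else 0) else 0 := by
    intro x
    rw [sum_comm]
    refine sum_congr rfl fun p _ => ?_
    by_cases h : (p : ZMod (10 ^ L)) = x
    · simp [h]
    · simp [h]
  simp only [h2]
  rw [sum_comm, sum_filter]
  refine sum_congr rfl fun p _ => ?_
  simp

lemma sum_GG_all (L : ℕ) [NeZero (10 ^ L)] : ∑ x, ∑ y, GG L x y = ∑ p ∈ PD L, Real.log p := by
  classical
  have h := sum_GG L (fun _ _ => True)
  simpa using h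

lemma sum_GG_rule (L : ℕ) [NeZero (10 ^ L)] (u v : ZMod (10 ^ L)) :
    ∑ x, GG L x (u * x + v) = ∑ p ∈ PF L u v, Real.log p := by
  classical
  have h := sum_GG L (fun x y => y = u * x + v)
  have h1 : ∀ x, ∑ y, (if y = u * x + v then GG L x y else 0) = GG L x (u * x + v) := by
    intro x
    simp
  simp only [h1] at h
  exact h

lemma sum_PD_le (L : ℕ) : ∑ p ∈ PD L, Real.log p ≤ 10 ^ (2 * L + 1) * (3 * (2 * L + 1)) := by
  have h2 := sum_le_card_nsmul (PD L) (fun p : ℕ => Real.log p) (3 * (2 * (L : ℝ) + 1))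
    (fun p hp => (log_PD (L := L) hp).2.1)
  refine h2.trans ?_
  rw [nsmul_eq_mul]
  have h3 : ((PD L).card : ℝ) ≤ 10 ^ (2 * L + 1) := by
    have : (PD L).card ≤ 10 ^ (2 * L + 1) := by
      unfold PD
      refine (card_filter_le _ _).trans ?_
      rw [Nat.card_Ico]
      exact Nat.sub_le _ _
    exact_mod_cast this
  have hL0 : (0 : ℝ) ≤ L := Nat.cast_nonneg _
  gcongr

lemma big {kap a A : ℝ} (hk : 0 < kap) (ha : 0 < a) (hA : 0 < A) : ∃ L0 : ℕ, ∀ L : ℕ, L0 ≤ L →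
    A * (2 * L + 1) ^ 2 ≤ Real.exp (a * (L : ℝ) ^ kap) := by
  have h1 : (fun x : ℝ => Real.log x) =o[Filter.atTop] (fun x : ℝ => x ^ kap) := isLittleO_log_rpow_atTop hk
  have h2 := h1.bound (show (0 : ℝ) < a / 3 by positivity)
  have h3 := tendsto_natCast_atTop_atTop (R := ℝ) |>.eventually h2
  obtain ⟨L2, h4⟩ := Filter.eventually_atTop.1 h3
  obtain ⟨L3, h5⟩ := exists_nat_ge (9 * A)
  refine ⟨max (max L2 L3) 1, fun L hL => ?_⟩
  have hL2 : L2 ≤ L := ((le_max_left _ _).trans (le_max_left _ _)).trans hL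
  have hL3 : L3 ≤ L := ((le_max_right _ _).trans (le_max_left _ _)).trans hL
  have hL1 : 1 ≤ L := (le_max_right _ _).trans hL
  have hLr : (1 : ℝ) ≤ L := by exact_mod_cast hL1
  have hL3r : 9 * A ≤ L := h5.trans (by exact_mod_cast hL3)
  have h6 := h4 L hL2
  rw [Real.norm_eq_abs, Real.norm_eq_abs, abs_of_nonneg (Real.log_nonneg hLr),
    abs_of_nonneg (Real.rpow_nonneg (by linarith) _)] at h6
  have h7 : A * (2 * L + 1) ^ 2 ≤ (L : ℝ) ^ 3 := by
    have e1 : (2 * (L : ℝ) + 1) ^ 2 ≤ 9 * (L : ℝ) ^ 2 := by nlinarith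
    calc A * (2 * L + 1) ^ 2 ≤ A * (9 * (L : ℝ) ^ 2) := by gcongr
      _ = 9 * A * (L : ℝ) ^ 2 := by ring
      _ ≤ L * (L : ℝ) ^ 2 := by gcongr
      _ = (L : ℝ) ^ 3 := by ring
  refine h7.trans ?_
  have h8 : (L : ℝ) ^ 3 = Real.exp (3 * Real.log L) := by
    rw [mul_comm, Real.exp_mul, Real.exp_log (by linarith)]
    norm_cast
  rw [h8]
  apply Real.exp_le_exp.2
  linarith

lemma log10_le : Real.log 10 ≤ 2.35 := by
  rw [Real.log_le_iff_le_exp (by norm_num)]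
  have h1 : Real.exp 2.35 = Real.exp 1 ^ 2 * Real.exp 0.35 := by
    rw [← Real.exp_nat_mul, ← Real.exp_add]; norm_num
  rw [h1]
  have h := Real.exp_one_gt_d9
  have h2 : (1.39 : ℝ) ≤ Real.exp 0.35 := by
    have := Real.quadratic_le_exp_of_nonneg (show (0 : ℝ) ≤ 0.35 by norm_num)
    norm_num at this ⊢
    linarith
  have h3 : (2.7182818 : ℝ) ^ 2 ≤ Real.exp 1 ^ 2 := pow_le_pow_left₀ (by norm_num) (by linarith) 2
  have h4 : (0 : ℝ) < Real.exp 1 ^ 2 := by positivity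
  nlinarith

open Classical in
/-- **almost all affine rules** -/
theorem fin2 {kap : ℝ} (hkap : 0 < kap) (hkap2 : kap ≤ 1 / 2) (hMain : S_MAIN kap) (hT : S_TEN) (hV : S_VAR) :
    ∃ c : ℝ, 0 < c ∧ ∃ L0 : ℕ, ∀ L : ℕ, L0 ≤ L → ∀ [NeZero (10 ^ L)], ∀ k : ℕ, (k : ℝ) ≤ c * (L : ℝ) ^ kap →
      ∀ hk : k ≤ L, ∀ (u0 v0 : ZMod (10 ^ k)),
      (((univ : Finset ((ZMod (10 ^ L))ˣ × ZMod (10 ^ L))).filter (fun w =>
        ZMod.castHom (pow_dvd_pow 10 hk) (ZMod (10 ^ k)) (w.1 : ZMod (10 ^ L)) = u0 ∧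
        ZMod.castHom (pow_dvd_pow 10 hk) (ZMod (10 ^ k)) w.2 = v0 ∧
        ¬ Good kap c L w.1 w.2)).card : ℝ) ≤ (10 ^ (L - k)) ^ 2 * Real.exp (-(c * (L : ℝ) ^ kap)) := by
  obtain ⟨c1', C1, hc1', hC1, hM'⟩ := hMain
  set c1 : ℝ := min c1' 1 with hc1d
  have hc1 : 0 < c1 := lt_min hc1' one_pos
  have hc11 : c1 ≤ 1 := min_le_right _ _
  have hc1le : c1 ≤ c1' := min_le_left _ _
  have hl10 : 0 < Real.log 10 := Real.log_pos (by norm_num)
  have hl2 : 0 < Real.log 2 := Real.log_pos (by norm_num)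
  have hl10' := log10_le
  set b : ℝ := c1 / 4 * (Real.log 2 / Real.log 10) with hb
  have hb0 : 0 < b := by positivity
  have hbc : b ≤ c1 / 4 := by
    have : Real.log 2 / Real.log 10 ≤ 1 := by
      rw [div_le_one hl10]
      exact Real.log_le_log (by norm_num) (by norm_num)
    rw [hb]
    nlinarith
  set c : ℝ := b / 10 with hc
  have hc0 : 0 < c := by positivity
  obtain ⟨L1, hL1⟩ := big (a := c) (A := 93600) hkap hc0 (by norm_num)
  obtain ⟨L2, hL2⟩ := big (a := c1 / 2) (A := 20 * C1) hkap (by positivity) (by positivity)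
  obtain ⟨L3, hL3⟩ := big (a := c1 / 4) (A := 2) hkap (by positivity) (by norm_num)
  refine ⟨c, hc0, max (max L1 L2) (max L3 2), fun L hL _ k hkc hk u0 v0 => ?_⟩
  have hLL1 : L1 ≤ L := ((le_max_left _ _).trans (le_max_left _ _)).trans hL
  have hLL2 : L2 ≤ L := ((le_max_right _ _).trans (le_max_left _ _)).trans hL
  have hLL3 : L3 ≤ L := ((le_max_left _ _).trans (le_max_right _ _)).trans hL
  have hLL4 : 2 ≤ L := ((le_max_right _ _).trans (le_max_right _ _)).trans hL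
  have hLr : (2 : ℝ) ≤ L := by exact_mod_cast hLL4
  set t : ℝ := (L : ℝ) ^ kap with ht
  have ht0 : 0 < t := Real.rpow_pos_of_pos (by linarith) _
  have htL : t ≤ L := by
    calc t ≤ (L : ℝ) ^ (1 : ℝ) := Real.rpow_le_rpow_of_exponent_le (by linarith) (by linarith)
      _ = L := Real.rpow_one _
  have hM : ∀ L K u v : ℕ, 1 ≤ K → K ≤ L →
      (10 : ℝ) ^ K ≤ Real.exp (c1 * (L : ℝ) ^ kap) → u.Coprime 10 →
      |∑ p ∈ (PD L).filter (fun p => up L p ≡ u * p + v [MOD 10 ^ K]), Real.log p -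
        (if v.Coprime 10 then 3 / 4 else 1) * 10 ^ (2 * L + 1) / 10 ^ K| ≤
      C1 * 10 ^ (2 * L + 1) * Real.exp (-(c1 * (L : ℝ) ^ kap)) := by
    intro L K u v h1 h2 h3 h4
    have hp : 0 ≤ (L : ℝ) ^ kap := Real.rpow_nonneg (Nat.cast_nonneg _) _
    have hcc : c1 * (L : ℝ) ^ kap ≤ c1' * (L : ℝ) ^ kap := mul_le_mul_of_nonneg_right hc1le hp
    refine (hM' L K u v h1 h2 (h3.trans (Real.exp_le_exp.2 hcc)) h4).trans ?_
    apply mul_le_mul_of_nonneg_left (Real.exp_le_exp.2 (neg_le_neg hcc)) (by positivity)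
  -- the level
  set K : ℕ := ⌊c1 / 4 * t / Real.log 10⌋₊ with hK
  have hq0 : 0 ≤ c1 / 4 * t / Real.log 10 := by positivity
  have hKle : (K : ℝ) ≤ c1 / 4 * t / Real.log 10 := Nat.floor_le hq0
  have hKlt : c1 / 4 * t / Real.log 10 < K + 1 := Nat.lt_floor_add_one _
  have hK1 : 1 ≤ K := by
    apply Nat.le_floor
    rw [Nat.cast_one, le_div_iff₀ hl10, one_mul, Real.log_le_iff_le_exp (by norm_num)]
    refine le_trans ?_ (hL3 L hLL3)
    nlinarith
  have hKL : K ≤ L := by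
    have h1 : (K : ℝ) ≤ L := by
      refine hKle.trans ?_
      rw [div_le_iff₀ hl10]
      have h2 : (1 : ℝ) ≤ Real.log 10 := by
        rw [Real.le_log_iff_exp_le (by norm_num)]
        linarith [Real.exp_one_lt_d9]
      nlinarith
    exact_mod_cast h1
  have h10K : (10 : ℝ) ^ K ≤ Real.exp (c1 / 4 * t) := by
    have h1 : (10 : ℝ) ^ K = Real.exp (K * Real.log 10) := by
      rw [mul_comm, Real.exp_mul, Real.exp_log (by norm_num), Real.rpow_natCast]
    rw [h1, Real.exp_le_exp]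
    rwa [le_div_iff₀ hl10] at hKle
  have h2K : 1 / (2 : ℝ) ^ K ≤ 2 * Real.exp (-(b * t)) := by
    have h1 : Real.exp (b * t) ≤ (2 : ℝ) ^ (K + 1) := by
      have h2 : (2 : ℝ) ^ (K + 1) = Real.exp ((K + 1) * Real.log 2) := by
        rw [mul_comm, Real.exp_mul, Real.exp_log (by norm_num)]
        norm_cast
      rw [h2, Real.exp_le_exp]
      have h3 : b * t = c1 / 4 * t / Real.log 10 * Real.log 2 := by rw [hb]; ring
      rw [h3]
      exact mul_le_mul_of_nonneg_right hKlt.le hl2.le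
    rw [pow_succ] at h1
    rw [Real.exp_neg, div_le_iff₀ (by positivity), mul_comm (2 : ℝ), mul_assoc, inv_mul_eq_div,
      le_div_iff₀ (Real.exp_pos _)]
    linarith
  have : NeZero (10 ^ K) := ⟨by positivity⟩
  set δ : ℝ := 10 ^ L * Real.exp (-(c * t)) with hδ
  have hδ0 : 0 < δ := by positivity
  -- the conditional means
  set fb : (ZMod (10 ^ L))ˣ → ZMod (10 ^ L) → ℝ := fun u v => (10 : ℝ) ^ K / 10 ^ L *
      ∑ x, ∑ y, (if ZMod.castHom (pow_dvd_pow 10 hKL) (ZMod (10 ^ K)) y =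
        ZMod.castHom (pow_dvd_pow 10 hKL) (ZMod (10 ^ K)) ((u : ZMod (10 ^ L)) * x + v) then GG L x y else 0) with hfb
  have hkey : ∀ (u : (ZMod (10 ^ L))ˣ) (v : ZMod (10 ^ L)), |fb u v - rho L v * 10 ^ (L + 1)| ≤ δ / 2 := by
    intro u v
    have e1 := sum_GG L (fun x y => ZMod.castHom (pow_dvd_pow 10 hKL) (ZMod (10 ^ K)) y =
        ZMod.castHom (pow_dvd_pow 10 hKL) (ZMod (10 ^ K)) ((u : ZMod (10 ^ L)) * x + v))
    have e2 : (PD L).filter (fun p : ℕ => ZMod.castHom (pow_dvd_pow 10 hKL) (ZMod (10 ^ K)) ((up L p : ℕ) : ZMod (10 ^ L)) =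
        ZMod.castHom (pow_dvd_pow 10 hKL) (ZMod (10 ^ K)) ((u : ZMod (10 ^ L)) * (p : ZMod (10 ^ L)) + v)) =
        (PD L).filter (fun p => up L p ≡ (u : ZMod (10 ^ L)).val * p + v.val [MOD 10 ^ K]) := by
      apply filter_congr
      intro p _
      rw [← ZMod.natCast_eq_natCast_iff]
      have h1 : (u : ZMod (10 ^ L)) * (p : ZMod (10 ^ L)) + v =
          (((u : ZMod (10 ^ L)).val * p + v.val : ℕ) : ZMod (10 ^ L)) := by
        push_cast
        rw [ZMod.natCast_zmod_val, ZMod.natCast_zmod_val]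
      rw [h1, map_natCast, map_natCast]
    have hu : Nat.Coprime (u : ZMod (10 ^ L)).val 10 := by
      have := ZMod.val_coe_unit_coprime u
      exact (Nat.coprime_pow_right_iff (by omega) _ _).1 this
    have e3 := hM L K (u : ZMod (10 ^ L)).val v.val hK1 hKL
      (h10K.trans (Real.exp_le_exp.2 (by nlinarith))) hu
    have e4 : (if v.val.Coprime 10 then (3 : ℝ) / 4 else 1) = rho L v := by
      unfold rho
      have h1 : IsUnit v ↔ v.val.Coprime 10 := by
        rw [← Nat.coprime_pow_right_iff (show 0 < L by omega), ← ZMod.isUnit_iff_coprime, ZMod.natCast_zmod_val]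
      by_cases h : IsUnit v
      · rw [if_pos h, if_pos (h1.1 h)]
      · rw [if_neg h, if_neg (fun h' => h (h1.2 h'))]
    rw [e4] at e3
    have e5 : fb u v - rho L v * 10 ^ (L + 1) = (10 : ℝ) ^ K / 10 ^ L *
        (∑ p ∈ (PD L).filter (fun p => up L p ≡ (u : ZMod (10 ^ L)).val * p + v.val [MOD 10 ^ K]), Real.log p -
        rho L v * 10 ^ (2 * L + 1) / 10 ^ K) := by
      rw [hfb]
      simp only
      rw [e1, e2, mul_sub]
      congr 1
      rw [show 2 * L + 1 = L + (L + 1) by ring, pow_add (10 : ℝ) L (L + 1)]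
      field_simp
    rw [e5, abs_mul, abs_of_pos (by positivity : (0 : ℝ) < 10 ^ K / 10 ^ L)]
    have e6 : C1 * 20 ≤ Real.exp (c1 / 2 * t) := by
      refine le_trans ?_ (hL2 L hLL2)
      have h1 : (1 : ℝ) ≤ (2 * (L : ℝ) + 1) ^ 2 := one_le_pow₀ (by linarith)
      have h2 : 20 * C1 * 1 ≤ 20 * C1 * (2 * (L : ℝ) + 1) ^ 2 := mul_le_mul_of_nonneg_left h1 (by positivity)
      linarith
    calc (10 : ℝ) ^ K / 10 ^ L * _ ≤ Real.exp (c1 / 4 * t) / 10 ^ L *
          (C1 * 10 ^ (2 * L + 1) * Real.exp (-(c1 * t))) := by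
          apply mul_le_mul _ e3 (abs_nonneg _) (by positivity)
          exact div_le_div_of_nonneg_right h10K (by positivity)
      _ = 10 ^ L / 2 * ((C1 * 20) * (Real.exp (c1 / 4 * t) * Real.exp (-(c1 * t)))) := by
          rw [show 2 * L + 1 = L + (L + 1) by ring, pow_add (10 : ℝ) L (L + 1), pow_succ]
          field_simp
          ring
      _ ≤ 10 ^ L / 2 * (Real.exp (c1 / 2 * t) * (Real.exp (c1 / 4 * t) * Real.exp (-(c1 * t)))) := by gcongr
      _ = 10 ^ L / 2 * Real.exp (-(c1 / 4 * t)) := by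
          rw [← Real.exp_add, ← Real.exp_add]; congr 2; ring
      _ ≤ 10 ^ L / 2 * Real.exp (-(c * t)) := by
          gcongr
          rw [hc]
          linarith
      _ = δ / 2 := by rw [hδ]; ring
  -- the variance
  have hvar := hV L K hK1 hKL (GG L) (30 * (2 * L + 1)) GG_nonneg (GG_le hT)
  rw [sum_GG_all] at hvar
  simp only [sum_GG_rule] at hvar
  have hvar2 : ∑ w : (ZMod (10 ^ L))ˣ × ZMod (10 ^ L), (∑ p ∈ PF L w.1 w.2, Real.log p - fb w.1 w.2) ^ 2 ≤
      (10 ^ L) ^ 4 * (11700 * (2 * L + 1) ^ 2 * (2 * Real.exp (-(b * t)))) := by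
    rw [Fintype.sum_prod_type]
    refine hvar.trans ?_
    have e1 := sum_PD_le L
    have e2 : (0 : ℝ) ≤ 13 * (30 * (2 * L + 1)) := by positivity
    calc 13 * (30 * (2 * (L : ℝ) + 1)) / 2 ^ K * (∑ p ∈ PD L, Real.log p) * (10 ^ L) ^ 2
        = 13 * (30 * (2 * (L : ℝ) + 1)) * (1 / 2 ^ K) * (∑ p ∈ PD L, Real.log p) * (10 ^ L) ^ 2 := by ring
      _ ≤ 13 * (30 * (2 * (L : ℝ) + 1)) * (2 * Real.exp (-(b * t))) * (10 ^ (2 * L + 1) * (3 * (2 * L + 1))) *
          (10 ^ L) ^ 2 := by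
          gcongr
      _ = _ := by
          rw [show 2 * L + 1 = L + (L + 1) by ring, pow_add (10 : ℝ) L (L + 1), pow_succ]
          ring
  -- Chebyshev
  set E := ((univ : Finset ((ZMod (10 ^ L))ˣ × ZMod (10 ^ L))).filter (fun w =>
        ZMod.castHom (pow_dvd_pow 10 hk) (ZMod (10 ^ k)) (w.1 : ZMod (10 ^ L)) = u0 ∧
        ZMod.castHom (pow_dvd_pow 10 hk) (ZMod (10 ^ k)) w.2 = v0 ∧
        ¬ Good kap c L w.1 w.2)) with hE
  have hcheb : (E.card : ℝ) * (δ / 2) ^ 2 ≤ (10 ^ L) ^ 4 * (11700 * (2 * L + 1) ^ 2 * (2 * Real.exp (-(b * t)))) := by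
    refine le_trans ?_ hvar2
    rw [← nsmul_eq_mul, ← sum_const]
    refine (sum_le_sum (fun w hw => ?_)).trans (sum_le_sum_of_subset_of_nonneg (subset_univ E)
      fun w _ _ => sq_nonneg _)
    rw [hE, mem_filter] at hw
    obtain ⟨_, _, _, hg⟩ := hw
    unfold Good at hg
    push Not at hg
    have h1 := hkey w.1 w.2
    rw [← sq_abs (∑ p ∈ PF L w.1 w.2, Real.log p - fb w.1 w.2)]
    apply pow_le_pow_left₀ (by positivity)
    have h2 : ∑ p ∈ PF L w.1 w.2, Real.log p - rho L w.2 * 10 ^ (L + 1) =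
        (∑ p ∈ PF L w.1 w.2, Real.log p - fb w.1 w.2) + (fb w.1 w.2 - rho L w.2 * 10 ^ (L + 1)) := by ring
    rw [h2] at hg
    have h3 := abs_add_le (∑ p ∈ PF L w.1 w.2, Real.log p - fb w.1 w.2) (fb w.1 w.2 - rho L w.2 * 10 ^ (L + 1))
    linarith
  have h10k : (10 : ℝ) ^ (2 * k) ≤ Real.exp (5 * c * t) := by
    have h1 : (10 : ℝ) ^ (2 * k) = Real.exp (2 * k * Real.log 10) := by
      have := Real.exp_nat_mul (Real.log 10) (2 * k)
      rw [Real.exp_log (by norm_num)] at this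
      rw [← this]
      push_cast
      rfl
    rw [h1, Real.exp_le_exp]
    have h2 : (0 : ℝ) ≤ k := Nat.cast_nonneg _
    calc 2 * (k : ℝ) * Real.log 10 ≤ 2 * (c * t) * 2.35 := by gcongr
      _ ≤ 5 * c * t := by nlinarith [mul_pos hc0 ht0]
  have hLk : ((10 : ℝ) ^ (L - k)) ^ 2 * 10 ^ (2 * k) = (10 ^ L) ^ 2 := by
    rw [← pow_mul, ← pow_mul, ← pow_add]
    congr 1
    omega
  have h93 := hL1 L hLL1
  have hfin : (10 ^ L) ^ 4 * (11700 * (2 * (L : ℝ) + 1) ^ 2 * (2 * Real.exp (-(b * t)))) ≤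
      (10 ^ (L - k)) ^ 2 * Real.exp (-(c * t)) * (δ / 2) ^ 2 := by
    have e1 : (δ / 2) ^ 2 = (10 ^ L) ^ 2 / 4 * Real.exp (-(2 * c * t)) := by
      rw [hδ, div_pow, mul_pow, ← Real.exp_nat_mul]
      have : ((2 : ℕ) : ℝ) * -(c * t) = -(2 * c * t) := by push_cast; ring
      rw [this]
      ring
    rw [e1]
    have e2 : 1 ≤ 10 ^ (2 * k) * (Real.exp (5 * c * t))⁻¹ * Real.exp (5 * c * t) * (1 / 10 ^ (2 * k)) := by
      have : (0 : ℝ) < Real.exp (5 * c * t) := Real.exp_pos _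
      rw [mul_assoc, mul_assoc]
      field_simp
      exact le_refl _
    have e3 : (10 ^ L) ^ 2 * Real.exp (-(5 * c * t)) ≤ ((10 : ℝ) ^ (L - k)) ^ 2 := by
      rw [← hLk, Real.exp_neg, mul_assoc]
      have h1 : (10 : ℝ) ^ (2 * k) * (Real.exp (5 * c * t))⁻¹ ≤ 1 := by
        rw [← div_eq_mul_inv, div_le_one (Real.exp_pos _)]
        exact h10k
      calc ((10 : ℝ) ^ (L - k)) ^ 2 * (10 ^ (2 * k) * (Real.exp (5 * c * t))⁻¹) ≤
            ((10 : ℝ) ^ (L - k)) ^ 2 * 1 := by gcongr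
        _ = _ := mul_one _
    calc (10 ^ L) ^ 4 * (11700 * (2 * (L : ℝ) + 1) ^ 2 * (2 * Real.exp (-(b * t))))
        = (10 ^ L) ^ 4 / 4 * ((93600 * (2 * (L : ℝ) + 1) ^ 2) * Real.exp (-(b * t))) := by ring
      _ ≤ (10 ^ L) ^ 4 / 4 * (Real.exp (c * t) * Real.exp (-(b * t))) := by gcongr
      _ = (10 ^ L) ^ 4 / 4 * Real.exp (-(9 * c * t)) := by
          rw [← Real.exp_add]
          congr 2
          rw [hc]
          ring
      _ ≤ (10 ^ L) ^ 4 / 4 * Real.exp (-(8 * c * t)) := by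
          gcongr
          nlinarith [mul_pos hc0 ht0]
      _ = ((10 ^ L) ^ 2 * Real.exp (-(5 * c * t))) * Real.exp (-(c * t)) *
          ((10 ^ L) ^ 2 / 4 * Real.exp (-(2 * c * t))) := by
          have : Real.exp (-(8 * c * t)) = Real.exp (-(5 * c * t)) * Real.exp (-(c * t)) * Real.exp (-(2 * c * t)) := by
            rw [← Real.exp_add, ← Real.exp_add]; congr 1; ring
          rw [this]
          ring
      _ ≤ ((10 : ℝ) ^ (L - k)) ^ 2 * Real.exp (-(c * t)) * ((10 ^ L) ^ 2 / 4 * Real.exp (-(2 * c * t))) := by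
          gcongr
  exact le_of_mul_le_mul_right (hcheb.trans hfin) (by positivity)

lemma rho_ge (L : ℕ) (v : ZMod (10 ^ L)) : 3 / 4 ≤ rho L v := by
  unfold rho
  split_ifs <;> norm_num

lemma real_ineq {n S Q a b ε : ℝ} (hn : 0 ≤ n) (hQ : 0 < Q) (ha : 0 < a) (hSl : a * n ≤ S)
    (hSu : S ≤ a * n + b * n) (hb : b ≤ ε / 2 * a) (h1 : |S - Q| ≤ ε / 2 * Q) (hε : 0 < ε) :
    |a * n / Q - 1| ≤ ε := by
  rw [abs_le] at h1 ⊢
  obtain ⟨h2, h3⟩ := h1
  have h8 : 0 ≤ a * n := by positivity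
  have h42 : b * n ≤ ε / 2 * a * n := mul_le_mul_of_nonneg_right hb hn
  constructor
  · have h5 : (1 - ε) * Q ≤ a * n := by
      rcases le_or_gt ε 1 with h5 | h5
      · have h9 : (1 - ε) * (1 + ε / 2) ≤ 1 - ε / 2 := by nlinarith
        have h10 : (1 - ε) * Q * (1 + ε / 2) ≤ (a * n) * (1 + ε / 2) := by
          have h11 : (1 - ε) * (1 + ε / 2) * Q ≤ (1 - ε / 2) * Q := mul_le_mul_of_nonneg_right h9 hQ.le
          linarith
        exact le_of_mul_le_mul_right h10 (by positivity)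
      · have h13 : (1 - ε) * Q ≤ 0 := mul_nonpos_of_nonpos_of_nonneg (by linarith) hQ.le
        linarith
    have h6 : 1 - ε ≤ a * n / Q := by rw [le_div_iff₀ hQ]; exact h5
    linarith
  · have h14 : 0 ≤ ε / 2 * Q := by positivity
    have h6 : a * n / Q ≤ 1 + ε := by
      rw [div_le_iff₀ hQ]
      linarith
    linarith

/-- the number of primes for the good rules -/
theorem asym2 {kap c : ℝ} (hkap : 0 < kap) (hc : 0 < c) : ∀ ε : ℝ, 0 < ε → ∃ L1 : ℕ, ∀ L : ℕ, L1 ≤ L →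
    ∀ u v : ZMod (10 ^ L), Good kap c L u v →
      |((PF L u v).card : ℝ) / (rho L v * (5 * 10 ^ L / (L * Real.log 10))) - 1| ≤ ε := by
  intro ε hε
  have hlog10 : 0 < Real.log 10 := Real.log_pos (by norm_num)
  obtain ⟨L1, hL1⟩ := big (a := c) (A := 2 / ε) hkap hc (by positivity)
  obtain ⟨L2, hL2⟩ := exists_nat_ge (2 / ε)
  refine ⟨max (max L1 L2) 1, fun L hL u v hg => ?_⟩
  have hLL1 : L1 ≤ L := ((le_max_left _ _).trans (le_max_left _ _)).trans hL
  have hLL2 : L2 ≤ L := ((le_max_right _ _).trans (le_max_left _ _)).trans hL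
  have hLL3 : 1 ≤ L := (le_max_right _ _).trans hL
  have hLr : (1 : ℝ) ≤ L := by exact_mod_cast hLL3
  have hL0 : (0 : ℝ) < L := by linarith
  have hρ := rho_ge L v
  have hρ0 : 0 < rho L v := by linarith
  have hSl : 2 * L * Real.log 10 * ((PF L u v).card : ℝ) ≤ ∑ p ∈ PF L u v, Real.log p := by
    have h := card_nsmul_le_sum (PF L u v) (fun p : ℕ => Real.log p) (2 * L * Real.log 10)
      (fun p hp => (log_PD (mem_filter.1 hp).1).2.2.1)
    rw [nsmul_eq_mul] at h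
    linarith
  have hSu : ∑ p ∈ PF L u v, Real.log p ≤ 2 * L * Real.log 10 * ((PF L u v).card : ℝ) +
      Real.log 10 * ((PF L u v).card : ℝ) := by
    have h := sum_le_card_nsmul (PF L u v) (fun p : ℕ => Real.log p) ((2 * L + 1) * Real.log 10)
      (fun p hp => (log_PD (mem_filter.1 hp).1).2.2.2)
    rw [nsmul_eq_mul] at h
    linarith
  have hQ0 : 0 < rho L v * 10 ^ (L + 1) := by positivity
  have h1 : |∑ p ∈ PF L u v, Real.log p - rho L v * 10 ^ (L + 1)| ≤ ε / 2 * (rho L v * 10 ^ (L + 1)) := by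
    refine (show |∑ p ∈ PF L u v, Real.log p - rho L v * 10 ^ (L + 1)| ≤ _ from hg).trans ?_
    have e1 := hL1 L hLL1
    have e2 : Real.exp (-(c * (L : ℝ) ^ kap)) ≤ ε / 2 := by
      rw [Real.exp_neg, inv_le_comm₀ (Real.exp_pos _) (by positivity)]
      refine le_trans ?_ e1
      rw [inv_div]
      exact le_mul_of_one_le_right (by positivity) (one_le_pow₀ (by linarith))
    have e3 : (10 : ℝ) ^ L ≤ rho L v * 10 ^ (L + 1) := by
      rw [pow_succ]
      have h5 : (0 : ℝ) < 10 ^ L := by positivity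
      nlinarith
    calc (10 : ℝ) ^ L * Real.exp (-(c * (L : ℝ) ^ kap)) ≤ (rho L v * 10 ^ (L + 1)) * (ε / 2) :=
          mul_le_mul e3 e2 (Real.exp_pos _).le hQ0.le
      _ = _ := by ring
  have h2 : ((PF L u v).card : ℝ) / (rho L v * (5 * 10 ^ L / (L * Real.log 10))) =
      2 * L * Real.log 10 * ((PF L u v).card : ℝ) / (rho L v * 10 ^ (L + 1)) := by
    rw [pow_succ]
    field_simp
    ring
  have h3 : Real.log 10 ≤ ε / 2 * (2 * L * Real.log 10) := by
    have h31 : 2 / ε ≤ L := hL2.trans (by exact_mod_cast hLL2)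
    rw [div_le_iff₀ hε] at h31
    have h32 : 1 ≤ ε / 2 * (L : ℝ) := by linarith
    have h33 := mul_le_mul_of_nonneg_right h32 hlog10.le
    linarith
  rw [h2]
  exact real_ineq (Nat.cast_nonneg _) hQ0 (by positivity) hSl hSu h3 h1 hε

end Pool.Agent.P8H18.AR
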