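import Pool.Agent.P8H18.RR.Stm4
import Pool.Agent.P8H18.RR.Fin

/-!
# Project DS, the assembly: from the second moment to almost all sequences of local conditions
-/

set_option autoImplicit false

namespace Pool.Agent.P8H18.DS

open Finset Pool.Agent.P8H18.RR

/-- the pairs of mirrored digits of `n` -/
def pr (L n : ℕ) : Fin (L - 1) → Om := fun i => (dg n (i + 1), dg n (2 * L - (i + 1)))

/-- the primes that satisfy the conditions `r` -/
def PQ (L : ℕ) (r : Fin (L - 1) → Finset Om) (e f : ℕ) : Finset ℕ :=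
  (PP L e f).filter (fun n => ∀ i, pr L n i ∈ r i)

/-- the sequence of conditions has the expected number of primes -/
def Good (c : ℝ) (s L : ℕ) (r : Fin (L - 1) → Finset Om) : Prop :=
  ∀ e f : ℕ, e ∈ ({1, 3, 7, 9} : Finset ℕ) → 1 ≤ f → f ≤ 9 →
    |∑ n ∈ PQ L r e f, Real.log n - 25 * (s : ℝ) ^ (L - 1)| ≤
      (s : ℝ) ^ (L - 1) * Real.exp (-(c * (√(L : ℝ) / Real.log L)))

/-- the sum over the primes with given pairs of digits -/
noncomputable def gw (L e f : ℕ) (w : Fin (L - 1) → Om) : ℝ :=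
  ∑ n ∈ (PP L e f).filter (fun n => pr L n = w), Real.log n

lemma sum_gw (L e f : ℕ) (T : Finset (Fin (L - 1) → Om)) (F : (Fin (L - 1) → Om) → ℝ) :
    ∑ w ∈ T, gw L e f w * F w = ∑ n ∈ (PP L e f).filter (fun n => pr L n ∈ T), Real.log n * F (pr L n) := by
  have h1 : ∀ w, gw L e f w * F w =
      ∑ n ∈ PP L e f, if pr L n = w then Real.log n * F w else 0 := by
    intro w
    unfold gw
    rw [← sum_filter, sum_mul]
  simp only [h1]
  rw [sum_comm, sum_filter]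
  refine sum_congr rfl fun n _ => ?_
  rw [sum_ite_eq]

lemma gw_nonneg (L e f : ℕ) (w : Fin (L - 1) → Om) : 0 ≤ gw L e f w :=
  sum_nonneg fun n _ => Real.log_natCast_nonneg n

lemma gw_le (hB : S_BIJ) {L e f : ℕ} (hL : 1 ≤ L) (w : Fin (L - 1) → Om) :
    |gw L e f w| ≤ 30 * (2 * L + 1) := by
  rw [abs_of_nonneg (gw_nonneg L e f w)]
  unfold gw
  have h := hB L e f hL (fun i => (w i).1) (fun i => (w i).2)
  have h2 : ((PP L e f).filter (fun n => pr L n = w)).card ≤ 10 := by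
    refine (card_le_card ?_).trans h
    intro n hn
    simp only [PP, mem_filter] at hn ⊢
    obtain ⟨⟨h1, h2, h3, h4⟩, h5⟩ := hn
    refine ⟨h1, h3, h4, fun i => ?_, fun i => ?_⟩
    · rw [← h5]; rfl
    · rw [← h5]; rfl
  have h3 : ∀ n ∈ (PP L e f).filter (fun n => pr L n = w), Real.log n ≤ 3 * (2 * L + 1) := by
    intro n hn
    simp only [PP, mem_filter, mem_range] at hn
    obtain ⟨⟨h1, h2, _⟩, _⟩ := hn
    have h4 : (n : ℝ) ≤ 10 ^ (2 * L + 1) := by exact_mod_cast h1.le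
    have h5 : (0 : ℝ) < n := by exact_mod_cast h2.pos
    have h6 : Real.log 10 ≤ 3 := by
      rw [Real.log_le_iff_le_exp (by norm_num)]
      have := Real.exp_one_gt_d9
      have h3 : Real.exp 3 = Real.exp 1 * Real.exp 1 * Real.exp 1 := by
        rw [← Real.exp_add, ← Real.exp_add]; norm_num
      rw [h3]
      nlinarith [mul_pos (Real.exp_pos 1) (Real.exp_pos 1), Real.exp_pos 1]
    calc Real.log n ≤ Real.log (10 ^ (2 * L + 1)) := Real.log_le_log h5 h4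
      _ = (2 * L + 1) * Real.log 10 := by rw [Real.log_pow]; push_cast; ring
      _ ≤ (2 * L + 1) * 3 := by gcongr
      _ = 3 * (2 * L + 1) := by ring
  calc ∑ n ∈ (PP L e f).filter (fun n => pr L n = w), Real.log n
      ≤ ((PP L e f).filter (fun n => pr L n = w)).card • (3 * (2 * (L : ℝ) + 1)) := sum_le_card_nsmul _ _ _ h3
    _ = (((PP L e f).filter (fun n => pr L n = w)).card : ℝ) * (3 * (2 * (L : ℝ) + 1)) := nsmul_eq_mul _ _
    _ ≤ 10 * (3 * (2 * (L : ℝ) + 1)) := by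
        have : (((PP L e f).filter (fun n => pr L n = w)).card : ℝ) ≤ 10 := by exact_mod_cast h2
        gcongr
    _ = _ := by ring

lemma cnt_gw (L e f : ℕ) (r : Fin (L - 1) → Finset Om) :
    ∑ w ∈ Fintype.piFinset r, gw L e f w = ∑ n ∈ PQ L r e f, Real.log n := by
  have h := sum_gw L e f (Fintype.piFinset r) (fun _ => 1)
  simp only [mul_one] at h
  rw [h]
  refine sum_congr ?_ fun _ _ => rfl
  unfold PQ
  refine filter_congr fun n _ => ?_
  rw [Fintype.mem_piFinset]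

lemma tot_gw (L e f : ℕ) : ∑ w, gw L e f w = ∑ n ∈ PP L e f, Real.log n := by
  have h := sum_gw L e f univ (fun _ => 1)
  simp only [mul_one] at h
  rw [h]
  refine sum_congr ?_ fun _ _ => rfl
  simp

/-- the correlations in terms of `gw` -/
lemma corr_gw (L e f : ℕ) (S : Finset (Fin (L - 1))) (a : Fin (L - 1) → Om) :
    ∑ w, gw L e f w * ∏ i ∈ S, ((if w i = a i then (1 : ℝ) else 0) - 1 / 100) =
    ∑ n ∈ (range (10 ^ (2 * L + 1))).filter (fun n => n.Prime ∧ dig n 0 = e ∧ dig n (2 * L) = f),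
      Real.log n * ∏ i ∈ S.image (fun i : Fin (L - 1) => (i : ℕ) + 1),
        bal L i (if h : i - 1 < L - 1 then ((a ⟨i - 1, h⟩).1 : ℕ) else 0)
          (if h : i - 1 < L - 1 then ((a ⟨i - 1, h⟩).2 : ℕ) else 0) n := by
  rw [sum_gw L e f univ (fun w => ∏ i ∈ S, ((if w i = a i then (1 : ℝ) else 0) - 1 / 100))]
  rw [filter_true_of_mem (fun _ _ => mem_univ _)]
  refine sum_congr rfl fun n _ => ?_
  congr 1
  rw [prod_image]
  · refine prod_congr rfl fun i _ => ?_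
    simp only [add_tsub_cancel_right, Fin.is_lt, dif_pos, Fin.eta]
    unfold bal pr
    congr 1
    congr 1
    rw [Prod.ext_iff, Fin.ext_iff, Fin.ext_iff]
    rfl
  · intro i _ j _ hij
    simp only at hij
    exact Fin.ext (by omega)

/-- the second moment, with everything inserted -/
lemma mom_gw (hM : S_MOM2) (hB : S_BIJ) {c1 C1 : ℝ} (hC1 : 0 < C1) {L1 : ℕ}
    (hWal : ∀ L : ℕ, L1 ≤ L →
      ∀ S : Finset ℕ, S.Nonempty → S ⊆ Ioo 0 L → (S.card : ℝ) ≤ c1 * √(L : ℝ) / Real.log L →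
      ∀ (d d' : ℕ → ℕ) (e f : ℕ), (∀ i, d i < 10) → (∀ i, d' i < 10) → e < 10 → f < 10 →
        |∑ n ∈ (range (10 ^ (2 * L + 1))).filter (fun n => n.Prime ∧ dig n 0 = e ∧ dig n (2 * L) = f),
          Real.log n * ∏ i ∈ S, bal L i (d i) (d' i) n| ≤
          C1 * 10 ^ (2 * L + 1) * Real.exp (-(c1 * √(L : ℝ))))
    {s : ℕ} {lam : ℝ} {RR : Finset (Finset Om)} (h0 : 0 ≤ lam) (h1 : lam ≤ 1) (hG : Gap s lam RR)
    {L e f K : ℕ} (hL1 : L1 ≤ L) (hL : 1 ≤ L) (he : e < 10) (hf : f < 10)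
    (hK : (K : ℝ) ≤ c1 * √(L : ℝ) / Real.log L) :
    ∑ r ∈ Fintype.piFinset (fun _ : Fin (L - 1) => RR),
      (∑ n ∈ PQ L r e f, Real.log n - ((s : ℝ) / 100) ^ (L - 1) * ∑ n ∈ PP L e f, Real.log n) ^ 2 ≤
    (RR.card : ℝ) ^ (L - 1) * (lam ^ K * (s : ℝ) ^ (2 * (L - 1)) * (30 * (2 * L + 1)) ^ 2 +
      ((((L - 1 : ℕ) : ℝ) + 1) * 10000) ^ K * (((s : ℝ) ^ 2 / 100) ^ (L - 1) *
        ((30 * (2 * L + 1)) * (C1 * 10 ^ (2 * L + 1) * Real.exp (-(c1 * √(L : ℝ))))))) := by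
  have h := hM (L - 1) s lam RR h0 h1 hG (gw L e f) K (30 * (2 * L + 1))
    (C1 * 10 ^ (2 * L + 1) * Real.exp (-(c1 * √(L : ℝ)))) (by positivity) (by positivity) (gw_le hB hL) (by
      intro S hS hSK a
      rw [corr_gw]
      refine hWal L hL1 (S.image (fun i : Fin (L - 1) => (i : ℕ) + 1)) (hS.image _) ?_ ?_ _ _ e f ?_ ?_ he hf
      · intro j hj
        rw [mem_image] at hj
        obtain ⟨i, _, rfl⟩ := hj
        rw [mem_Ioo]
        have := i.2
        omega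
      · have h1 : ((S.image (fun i : Fin (L - 1) => (i : ℕ) + 1)).card : ℝ) ≤ K := by
          exact_mod_cast card_image_le.trans hSK
        exact h1.trans hK
      · intro i
        split
        · exact Fin.is_lt _
        · norm_num
      · intro i
        split
        · exact Fin.is_lt _
        · norm_num)
  simp only [cnt_gw, tot_gw] at h
  exact h

lemma log_t {η : ℝ} (hη : 0 < η) : ∃ L2 : ℕ, ∀ L : ℕ, L2 ≤ L → 2 * Real.log L ≤ η * (√(L : ℝ) / Real.log L) := by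
  have h1 : (fun x : ℝ => Real.log x ^ 2) =o[Filter.atTop] id := Real.isLittleO_pow_log_id_atTop
  have h2 := h1.bound (show (0 : ℝ) < η / 8 by positivity)
  have h3 : Filter.Tendsto (fun L : ℕ => √(L : ℝ)) Filter.atTop Filter.atTop :=
    Real.tendsto_sqrt_atTop.comp tendsto_natCast_atTop_atTop
  obtain ⟨L2, h4⟩ := Filter.eventually_atTop.1 (h3.eventually h2)
  refine ⟨max L2 2, fun L hL => ?_⟩
  have h5 := h4 L ((le_max_left _ _).trans hL)
  have hL2 : 2 ≤ L := (le_max_right _ _).trans hL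
  have hLr : (2 : ℝ) ≤ L := by exact_mod_cast hL2
  have hlog : 0 < Real.log L := Real.log_pos (by linarith)
  rw [id, Real.norm_eq_abs, Real.norm_eq_abs, abs_of_nonneg (sq_nonneg _), abs_of_nonneg (Real.sqrt_nonneg _),
    Real.log_sqrt (by positivity)] at h5
  rw [← mul_div_assoc, le_div_iff₀ hlog]
  nlinarith

/-- numerics: the bound of the second moment -/
lemma num_V {c' C1 μ : ℝ} (hc' : 0 < c') (hC1 : 0 < C1) (hμ : 1 / 2 ≤ μ) (hμ1 : μ < 1) {lam : ℝ} (h0 : 0 ≤ lam)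
    (hlam : lam ≤ μ) {s L K : ℕ} (hL : 10000 ≤ L) {t : ℝ} (ht : 1 ≤ t) (hts : t * Real.log L = √(L : ℝ))
    (hts' : t ≤ √(L : ℝ)) (hK : (K : ℝ) ≤ c' * t) (hK' : c' * t < K + 1) :
    lam ^ K * (s : ℝ) ^ (2 * (L - 1)) * (30 * (2 * L + 1)) ^ 2 +
      ((((L - 1 : ℕ) : ℝ) + 1) * 10000) ^ K * (((s : ℝ) ^ 2 / 100) ^ (L - 1) *
        ((30 * (2 * L + 1)) * (C1 * 10 ^ (2 * L + 1) * Real.exp (-(4 * c' * √(L : ℝ)))))) ≤
    (s : ℝ) ^ (2 * (L - 1)) * ((2 + 1000 * C1) * 8100 * (L : ℝ) ^ 2 * Real.exp (-(-Real.log μ * c' * t))) := by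
  have hLr : (10000 : ℝ) ≤ L := by exact_mod_cast hL
  have hL0 : (0 : ℝ) < L := by linarith
  have hμ0 : 0 < μ := by linarith
  have hν0 : 0 < -Real.log μ := by
    have := Real.log_neg hμ0 hμ1
    linarith
  have hν1 : -Real.log μ ≤ 1 := by
    have h1 : Real.log (1 / 2) ≤ Real.log μ := Real.log_le_log (by norm_num) hμ
    have h2 : Real.log (1 / 2 : ℝ) = -Real.log 2 := by rw [one_div, Real.log_inv]
    have := Real.log_two_lt_d9
    linarith
  set ν := -Real.log μ with hν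
  have hs0 : (0 : ℝ) ≤ (s : ℝ) ^ (2 * (L - 1)) := by positivity
  have hK1 : lam ^ K ≤ 2 * Real.exp (-(ν * c' * t)) := by
    calc lam ^ K ≤ μ ^ K := pow_le_pow_left₀ h0 hlam K
      _ = Real.exp (K * Real.log μ) := by rw [← Real.exp_log hμ0, ← Real.exp_nat_mul, Real.exp_log hμ0]
      _ ≤ Real.exp (Real.log 2 + -(ν * c' * t)) := by
          rw [Real.exp_le_exp]
          have h1 : Real.log μ = -ν := by rw [hν]; ring
          have h2 : ν ≤ Real.log 2 := by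
            have h1 : Real.log (1 / 2) ≤ Real.log μ := Real.log_le_log (by norm_num) hμ
            have h2 : Real.log (1 / 2 : ℝ) = -Real.log 2 := by rw [one_div, Real.log_inv]
            rw [hν]
            linarith
          rw [h1]
          nlinarith
      _ = 2 * Real.exp (-(ν * c' * t)) := by rw [Real.exp_add, Real.exp_log (by norm_num)]
  have h12 : ((((L - 1 : ℕ) : ℝ) + 1) * 10000) ^ K ≤ Real.exp (2 * c' * √(L : ℝ)) := by
    have e1 : (((L - 1 : ℕ) : ℝ) + 1) = L := by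
      have : (L - 1) + 1 = L := by omega
      exact_mod_cast this
    rw [e1]
    have e2 : (L : ℝ) * 10000 ≤ Real.exp (2 * Real.log L) := by
      rw [two_mul, Real.exp_add, Real.exp_log hL0]
      nlinarith
    have hlog0 : 0 < Real.log L := Real.log_pos (by linarith)
    calc ((L : ℝ) * 10000) ^ K ≤ Real.exp (2 * Real.log L) ^ K := pow_le_pow_left₀ (by positivity) e2 _
      _ = Real.exp (K * (2 * Real.log L)) := by rw [← Real.exp_nat_mul]
      _ ≤ Real.exp (2 * c' * √(L : ℝ)) := by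
        rw [Real.exp_le_exp, ← hts]
        nlinarith
  have h90 : (30 * (2 * (L : ℝ) + 1)) ≤ 90 * L := by linarith
  have h90' : (30 * (2 * (L : ℝ) + 1)) ^ 2 ≤ 8100 * (L : ℝ) ^ 2 := by
    calc (30 * (2 * (L : ℝ) + 1)) ^ 2 ≤ (90 * L) ^ 2 := pow_le_pow_left₀ (by positivity) h90 2
      _ = _ := by ring
  have h90'' : (30 * (2 * (L : ℝ) + 1)) ≤ 8100 * (L : ℝ) ^ 2 := by nlinarith
  have hA : lam ^ K * (s : ℝ) ^ (2 * (L - 1)) * (30 * (2 * L + 1)) ^ 2 ≤
      (s : ℝ) ^ (2 * (L - 1)) * (2 * 8100 * (L : ℝ) ^ 2 * Real.exp (-(ν * c' * t))) := by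
    calc lam ^ K * (s : ℝ) ^ (2 * (L - 1)) * (30 * (2 * L + 1)) ^ 2
        ≤ (2 * Real.exp (-(ν * c' * t))) * (s : ℝ) ^ (2 * (L - 1)) * (8100 * (L : ℝ) ^ 2) := by
          gcongr
      _ = _ := by ring
  have hpow : ((s : ℝ) ^ 2 / 100) ^ (L - 1) * 10 ^ (2 * L + 1) = (s : ℝ) ^ (2 * (L - 1)) * 1000 := by
    have e1 : 2 * L + 1 = 2 * (L - 1) + 3 := by omega
    rw [e1, div_pow, pow_add, pow_mul, pow_mul, div_mul_eq_mul_div]
    have : ((10 : ℝ) ^ 2) ^ (L - 1) = 100 ^ (L - 1) := by norm_num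
    rw [this]
    field_simp
    norm_num
  have hexp : Real.exp (2 * c' * √(L : ℝ)) * Real.exp (-(4 * c' * √(L : ℝ))) ≤ Real.exp (-(ν * c' * t)) := by
    rw [← Real.exp_add, Real.exp_le_exp]
    have h1 : ν * c' * t ≤ 1 * c' * √(L : ℝ) := by gcongr
    have h2 : 0 ≤ c' * √(L : ℝ) := by positivity
    nlinarith
  have hB : ((((L - 1 : ℕ) : ℝ) + 1) * 10000) ^ K * (((s : ℝ) ^ 2 / 100) ^ (L - 1) *
        ((30 * (2 * L + 1)) * (C1 * 10 ^ (2 * L + 1) * Real.exp (-(4 * c' * √(L : ℝ)))))) ≤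
      (s : ℝ) ^ (2 * (L - 1)) * (1000 * C1 * 8100 * (L : ℝ) ^ 2 * Real.exp (-(ν * c' * t))) := by
    calc ((((L - 1 : ℕ) : ℝ) + 1) * 10000) ^ K * (((s : ℝ) ^ 2 / 100) ^ (L - 1) *
        ((30 * (2 * L + 1)) * (C1 * 10 ^ (2 * L + 1) * Real.exp (-(4 * c' * √(L : ℝ)))))) 
        ≤ Real.exp (2 * c' * √(L : ℝ)) * (((s : ℝ) ^ 2 / 100) ^ (L - 1) *
        ((8100 * (L : ℝ) ^ 2) * (C1 * 10 ^ (2 * L + 1) * Real.exp (-(4 * c' * √(L : ℝ)))))) := by
          gcongr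
      _ = (((s : ℝ) ^ 2 / 100) ^ (L - 1) * 10 ^ (2 * L + 1)) * (C1 * 8100 * (L : ℝ) ^ 2 *
          (Real.exp (2 * c' * √(L : ℝ)) * Real.exp (-(4 * c' * √(L : ℝ))))) := by ring
      _ ≤ ((s : ℝ) ^ (2 * (L - 1)) * 1000) * (C1 * 8100 * (L : ℝ) ^ 2 * Real.exp (-(ν * c' * t))) := by
          rw [hpow]
          gcongr
      _ = _ := by ring
  calc _ ≤ (s : ℝ) ^ (2 * (L - 1)) * (2 * 8100 * (L : ℝ) ^ 2 * Real.exp (-(ν * c' * t))) +
      (s : ℝ) ^ (2 * (L - 1)) * (1000 * C1 * 8100 * (L : ℝ) ^ 2 * Real.exp (-(ν * c' * t))) := add_le_add hA hB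
    _ = _ := by ring

/-- numerics: the mean -/
lemma num_mean {c c2 C2 : ℝ} (hC2 : 0 < C2) (hc : c ≤ c2 / 2) (hc0 : 0 < c) {s L : ℕ} (hL : 1 ≤ L) {t : ℝ} (ht : 0 ≤ t)
    (hts' : t ≤ √(L : ℝ)) (htl : Real.log (200 * C2) ≤ c2 / 2 * t) {P : ℝ}
    (hP : |P - 10 ^ (2 * L) / 4| ≤ C2 * 10 ^ (2 * L) * Real.exp (-(c2 * √(L : ℝ)))) :
    |((s : ℝ) / 100) ^ (L - 1) * P - 25 * (s : ℝ) ^ (L - 1)| ≤ (s : ℝ) ^ (L - 1) * Real.exp (-(c * t)) / 2 := by
  have e0 : (10 : ℝ) ^ (2 * L) = 100 ^ (L - 1) * 100 := by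
    rw [← pow_succ, pow_mul]
    have : L - 1 + 1 = L := by omega
    rw [this]
    norm_num
  have e1 : ((s : ℝ) / 100) ^ (L - 1) * P - 25 * (s : ℝ) ^ (L - 1) =
      ((s : ℝ) / 100) ^ (L - 1) * (P - 10 ^ (2 * L) / 4) := by
    rw [e0, mul_sub, div_pow]
    have : (0 : ℝ) < 100 ^ (L - 1) := by positivity
    field_simp
    ring
  have hpos : (0 : ℝ) ≤ ((s : ℝ) / 100) ^ (L - 1) := by positivity
  rw [e1, abs_mul, abs_of_nonneg hpos]
  have hexp : 200 * C2 * Real.exp (-(c2 * √(L : ℝ))) ≤ Real.exp (-(c * t)) := by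
    calc 200 * C2 * Real.exp (-(c2 * √(L : ℝ))) ≤ Real.exp (c2 / 2 * t) * Real.exp (-(c2 * √(L : ℝ))) := by
          gcongr
          rw [← Real.log_le_iff_le_exp (by positivity)]
          exact htl
      _ = Real.exp (c2 / 2 * t - c2 * √(L : ℝ)) := by rw [← Real.exp_add]; ring_nf
      _ ≤ Real.exp (-(c * t)) := by
          rw [Real.exp_le_exp]
          have h1 : c2 * t ≤ c2 * √(L : ℝ) := by
            have : 0 < c2 := by linarith
            gcongr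
          have h2 : c * t ≤ c2 / 2 * t := by gcongr
          linarith
  calc ((s : ℝ) / 100) ^ (L - 1) * |P - 10 ^ (2 * L) / 4|
      ≤ ((s : ℝ) / 100) ^ (L - 1) * (C2 * 10 ^ (2 * L) * Real.exp (-(c2 * √(L : ℝ)))) := by gcongr
    _ = (s : ℝ) ^ (L - 1) * (200 * C2 * Real.exp (-(c2 * √(L : ℝ)))) / 2 := by
        rw [e0, div_pow]
        have : (0 : ℝ) < 100 ^ (L - 1) := by positivity
        field_simp
        ring
    _ ≤ (s : ℝ) ^ (L - 1) * Real.exp (-(c * t)) / 2 := by gcongr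

end Pool.Agent.P8H18.DS
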