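import Pool.Agent.P8H18.RR.Fin3

/-!
# Project DS, the assembly: almost all sequences of local conditions
-/

set_option autoImplicit false

namespace Pool.Agent.P8H18.DS

open Finset Pool.Agent.P8H18.RR

open Classical in
/-- Chebyshev for one pair `(e, f)` -/
lemma cheb {n : ℕ} (RR : Finset (Finset Om)) (X : (Fin n → Finset Om) → ℝ) {m m' δ V : ℝ} (hδ : 0 < δ)
    (hm : |m' - m| ≤ δ)
    (hV : ∑ r ∈ Fintype.piFinset (fun _ : Fin n => RR), (X r - m') ^ 2 ≤ V) :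
    (((Fintype.piFinset (fun _ : Fin n => RR)).filter (fun r => 2 * δ < |X r - m|)).card : ℝ) * δ ^ 2 ≤ V := by
  refine le_trans ?_ hV
  rw [← nsmul_eq_mul, ← sum_const]
  refine (sum_le_sum (fun r hr => ?_)).trans (sum_le_sum_of_subset_of_nonneg (filter_subset _ _)
    fun r _ _ => sq_nonneg _)
  rw [mem_filter] at hr
  rw [← sq_abs (X r - m')]
  refine pow_le_pow_left₀ hδ.le ?_ 2
  have h1 : |X r - m| ≤ |X r - m'| + |m' - m| := by
    have := abs_add_le (X r - m') (m' - m)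
    rwa [sub_add_sub_cancel] at this
  linarith [hr.2]

open Classical in
/-- the union of the exceptional sets -/
lemma union_bd {n : ℕ} (RR : Finset (Finset Om)) (X : (Fin n → Finset Om) → ℕ → ℕ → ℝ) {m δ V : ℝ} (hV : 0 ≤ V)
    (hc : ∀ e f : ℕ, e ∈ ({1, 3, 7, 9} : Finset ℕ) → 1 ≤ f → f ≤ 9 →
      (((Fintype.piFinset (fun _ : Fin n => RR)).filter (fun r => 2 * δ < |X r e f - m|)).card : ℝ) * δ ^ 2 ≤ V)
    {P : (Fin n → Finset Om) → Prop}
    (hP : ∀ r, ¬ P r → ∃ e f : ℕ, e ∈ ({1, 3, 7, 9} : Finset ℕ) ∧ 1 ≤ f ∧ f ≤ 9 ∧ 2 * δ < |X r e f - m|) :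
    (((Fintype.piFinset (fun _ : Fin n => RR)).filter (fun r => ¬ P r)).card : ℝ) * δ ^ 2 ≤ 100 * V := by
  have hun : ((Fintype.piFinset (fun _ : Fin n => RR)).filter (fun r => ¬ P r)) ⊆
      (({1, 3, 7, 9} : Finset ℕ) ×ˢ Icc 1 9).biUnion (fun ef => (Fintype.piFinset (fun _ : Fin n => RR)).filter
        (fun r => 2 * δ < |X r ef.1 ef.2 - m|)) := by
    intro r hr
    rw [mem_filter] at hr
    obtain ⟨h1, h2⟩ := hr
    obtain ⟨e, f, he, hf1, hf9, h3⟩ := hP r h2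
    rw [mem_biUnion]
    exact ⟨(e, f), mem_product.2 ⟨he, mem_Icc.2 ⟨hf1, hf9⟩⟩, mem_filter.2 ⟨h1, h3⟩⟩
  have h1 := (card_le_card hun).trans card_biUnion_le
  have h2 : (((Fintype.piFinset (fun _ : Fin n => RR)).filter (fun r => ¬ P r)).card : ℝ) ≤
    ∑ ef ∈ ({1, 3, 7, 9} : Finset ℕ) ×ˢ Icc 1 9, (((Fintype.piFinset (fun _ : Fin n => RR)).filter
      (fun r => 2 * δ < |X r ef.1 ef.2 - m|)).card : ℝ) := by
    exact_mod_cast h1
  have h36 : (({1, 3, 7, 9} : Finset ℕ) ×ˢ (Icc 1 9 : Finset ℕ)).card = 36 := by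
    rw [card_product]
    rfl
  calc _ ≤ (∑ ef ∈ ({1, 3, 7, 9} : Finset ℕ) ×ˢ Icc 1 9, (((Fintype.piFinset (fun _ : Fin n => RR)).filter
      (fun r => 2 * δ < |X r ef.1 ef.2 - m|)).card : ℝ)) * δ ^ 2 :=
        mul_le_mul_of_nonneg_right h2 (sq_nonneg δ)
    _ ≤ ∑ ef ∈ ({1, 3, 7, 9} : Finset ℕ) ×ˢ Icc 1 9, V := by
        rw [sum_mul]
        refine sum_le_sum fun ef hef => ?_
        rw [mem_product, mem_Icc] at hef
        exact hc ef.1 ef.2 hef.1 hef.2.1 hef.2.2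
    _ = 36 * V := by
        rw [sum_const, h36, nsmul_eq_mul]
        norm_num
    _ ≤ 100 * V := by linarith

lemma num_fin {R C1 a c t : ℝ} {s L : ℕ} (hR : 0 ≤ R) (hC1 : 0 < C1) (ha : 0 < a) (ht : 0 ≤ t) (hc : c ≤ a / 8)
    (hL0 : (0 : ℝ) < L)
    (ht3 : Real.log (400 * ((2 + 1000 * C1) * 8100)) ≤ a / 4 * t) (ht4 : 2 * Real.log L ≤ a / 4 * t) :
    100 * (R * ((s : ℝ) ^ (2 * (L - 1)) * ((2 + 1000 * C1) * 8100 * (L : ℝ) ^ 2 * Real.exp (-(a * t))))) ≤
      R * Real.exp (-(c * t)) * ((s : ℝ) ^ (L - 1) * Real.exp (-(c * t)) / 2) ^ 2 := by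
  have hA0 : 0 < 400 * ((2 + 1000 * C1) * 8100) := by positivity
  have e3 : 400 * ((2 + 1000 * C1) * 8100) ≤ Real.exp (a / 4 * t) := by
    rw [← Real.log_le_iff_le_exp hA0]; exact ht3
  have e4 : (L : ℝ) ^ 2 ≤ Real.exp (a / 4 * t) := by
    rw [← Real.log_le_iff_le_exp (by positivity), Real.log_pow]
    exact_mod_cast ht4
  have e5 : 400 * ((2 + 1000 * C1) * 8100) * (L : ℝ) ^ 2 * Real.exp (-(a * t)) ≤
      Real.exp (-(c * t)) * (Real.exp (-(c * t)) * Real.exp (-(c * t))) := by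
    calc 400 * ((2 + 1000 * C1) * 8100) * (L : ℝ) ^ 2 * Real.exp (-(a * t))
        ≤ Real.exp (a / 4 * t) * Real.exp (a / 4 * t) * Real.exp (-(a * t)) := by gcongr
      _ = Real.exp (a / 4 * t + a / 4 * t + -(a * t)) := by rw [← Real.exp_add, ← Real.exp_add]
      _ ≤ Real.exp (-(c * t) + (-(c * t) + -(c * t))) := by
          rw [Real.exp_le_exp]
          have h1 : c * t ≤ a / 8 * t := by gcongr
          have h5 : 0 ≤ a * t := by positivity
          linarith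
      _ = Real.exp (-(c * t)) * (Real.exp (-(c * t)) * Real.exp (-(c * t))) := by
          rw [Real.exp_add, Real.exp_add]
  have hp : (s : ℝ) ^ (2 * (L - 1)) = ((s : ℝ) ^ (L - 1)) ^ 2 := by rw [mul_comm 2 (L - 1), pow_mul]
  have e6 : 0 ≤ R * (s : ℝ) ^ (2 * (L - 1)) / 4 := by positivity
  calc 100 * (R * ((s : ℝ) ^ (2 * (L - 1)) * ((2 + 1000 * C1) * 8100 * (L : ℝ) ^ 2 * Real.exp (-(a * t)))))
      = R * (s : ℝ) ^ (2 * (L - 1)) / 4 *
        (400 * ((2 + 1000 * C1) * 8100) * (L : ℝ) ^ 2 * Real.exp (-(a * t))) := by ring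
    _ ≤ R * (s : ℝ) ^ (2 * (L - 1)) / 4 * (Real.exp (-(c * t)) * (Real.exp (-(c * t)) * Real.exp (-(c * t)))) :=
        mul_le_mul_of_nonneg_left e5 e6
    _ = _ := by rw [hp]; ring

open Classical in
/-- **almost all sequences of local conditions**, one spectral gap -/
theorem fin3 (hW : S_WAL2) (hM : S_MOM2) (hB : S_BIJ) (hP : S_PNT2) {lam : ℝ} (h0 : 0 ≤ lam) (h1 : lam < 1) :
    ∃ c : ℝ, 0 < c ∧ ∃ L0 : ℕ, ∀ L : ℕ, L0 ≤ L → ∀ (s : ℕ) (RR : Finset (Finset Om)), 1 ≤ s → Gap s lam RR →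
      (((Fintype.piFinset (fun _ : Fin (L - 1) => RR)).filter (fun r => ¬ Good c s L r)).card : ℝ) ≤
        (RR.card : ℝ) ^ (L - 1) * Real.exp (-(c * (√(L : ℝ) / Real.log L))) := by
  obtain ⟨c1, C1, hc1, hC1, L1, hWal⟩ := hW
  obtain ⟨c2, C2, hc2, hC2, hPnt⟩ := hP
  set μ : ℝ := max lam (1 / 2) with hμd
  have hμ : 1 / 2 ≤ μ := le_max_right _ _
  have hμ1 : μ < 1 := max_lt h1 (by norm_num)
  have hlam : lam ≤ μ := le_max_left _ _
  have hμ0 : 0 < μ := by linarith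
  have hν0 : 0 < -Real.log μ := by
    have := Real.log_neg hμ0 hμ1
    linarith
  set ν := -Real.log μ with hν
  set c' := c1 / 4 with hc'
  have hc'0 : 0 < c' := by positivity
  set c : ℝ := min (ν * c' / 8) (c2 / 2) with hcd
  have hc0 : 0 < c := lt_min (by positivity) (by positivity)
  have hcν : c ≤ ν * c' / 8 := min_le_left _ _
  have hcc2 : c ≤ c2 / 2 := min_le_right _ _
  obtain ⟨L2, hL2⟩ := t_large (max 1 (max (Real.log (200 * C2) / (c2 / 2)) (Real.log (400 * ((2 + 1000 * C1) * 8100)) / (ν * c' / 4))))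
  obtain ⟨L3, hL3⟩ := log_t (show 0 < ν * c' / 4 by positivity)
  refine ⟨c, hc0, max (max L1 L2) (max L3 10000), fun L hL s RR hs hG => ?_⟩
  have hL1 : L1 ≤ L := ((le_max_left _ _).trans (le_max_left _ _)).trans hL
  have hL2' : L2 ≤ L := ((le_max_right _ _).trans (le_max_left _ _)).trans hL
  have hL3' : L3 ≤ L := ((le_max_left _ _).trans (le_max_right _ _)).trans hL
  have hL4 : 10000 ≤ L := ((le_max_right _ _).trans (le_max_right _ _)).trans hL
  have hLr : (10000 : ℝ) ≤ L := by exact_mod_cast hL4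
  have hL0 : (0 : ℝ) < L := by linarith
  have hlog1 : 1 ≤ Real.log L := by
    rw [Real.le_log_iff_exp_le hL0]; linarith [Real.exp_one_lt_d9]
  set t := √(L : ℝ) / Real.log L with ht
  have htmax := hL2 L hL2'
  have ht1 : 1 ≤ t := (le_max_left _ _).trans htmax
  have ht2 : Real.log (200 * C2) ≤ c2 / 2 * t := by
    have := ((le_max_left _ _).trans (le_max_right _ _)).trans htmax
    rw [div_le_iff₀ (by positivity)] at this
    linarith
  have ht3 : Real.log (400 * ((2 + 1000 * C1) * 8100)) ≤ ν * c' / 4 * t := by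
    have := ((le_max_right _ _).trans (le_max_right _ _)).trans htmax
    rw [div_le_iff₀ (by positivity)] at this
    linarith
  have ht4 : 2 * Real.log L ≤ ν * c' / 4 * t := hL3 L hL3'
  have hts : t * Real.log L = √(L : ℝ) := by rw [ht]; field_simp
  have hts' : t ≤ √(L : ℝ) := by rw [← hts]; exact le_mul_of_one_le_right (by linarith) hlog1
  set K := ⌊c' * t⌋₊ with hK
  have hKt : (K : ℝ) ≤ c' * t := Nat.floor_le (by positivity)
  have hKt' : c' * t < K + 1 := Nat.lt_floor_add_one _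
  have hKc : (K : ℝ) ≤ c1 * √(L : ℝ) / Real.log L := by
    rw [mul_div_assoc, ← ht]
    refine hKt.trans ?_
    have : c' ≤ c1 := by rw [hc']; linarith
    gcongr
  have hs0 : (0 : ℝ) < s := by exact_mod_cast hs
  have hRR0 : (0 : ℝ) < (RR.card : ℝ) ^ (L - 1) := by
    have : (0 : ℝ) < RR.card := by exact_mod_cast hG.ne.card_pos
    positivity
  set V : ℝ := (RR.card : ℝ) ^ (L - 1) * ((s : ℝ) ^ (2 * (L - 1)) *
    ((2 + 1000 * C1) * 8100 * (L : ℝ) ^ 2 * Real.exp (-(ν * c' * t)))) with hV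
  set δ : ℝ := (s : ℝ) ^ (L - 1) * Real.exp (-(c * t)) / 2 with hδ
  have hδ0 : 0 < δ := by positivity
  -- the second moment
  have hmom : ∀ e f : ℕ, e < 10 → f < 10 →
      ∑ r ∈ Fintype.piFinset (fun _ : Fin (L - 1) => RR),
        (∑ n ∈ PQ L r e f, Real.log n - ((s : ℝ) / 100) ^ (L - 1) * ∑ n ∈ PP L e f, Real.log n) ^ 2 ≤ V := by
    intro e f he hf
    refine (mom_gw hM hB hC1 hWal h0 h1.le hG hL1 (by omega) he hf hKc).trans ?_
    rw [hV]
    apply mul_le_mul_of_nonneg_left _ hRR0.le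
    have h4 : c1 = 4 * c' := by rw [hc']; ring
    rw [h4]
    exact num_V hc'0 hC1 hμ hμ1 h0 hlam hL4 ht1 hts hts' hKt hKt'
  -- the mean
  have hmean : ∀ e f : ℕ, e ∈ ({1, 3, 7, 9} : Finset ℕ) → 1 ≤ f → f ≤ 9 →
      |((s : ℝ) / 100) ^ (L - 1) * ∑ n ∈ PP L e f, Real.log n - 25 * (s : ℝ) ^ (L - 1)| ≤ δ := by
    intro e f he hf1 hf9
    exact num_mean hC2 hcc2 hc0 (by omega) (by linarith) hts' ht2 (hPnt L e f (by omega) he hf1 hf9)
  have hcheb : ∀ e f : ℕ, e ∈ ({1, 3, 7, 9} : Finset ℕ) → 1 ≤ f → f ≤ 9 →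
      (((Fintype.piFinset (fun _ : Fin (L - 1) => RR)).filter (fun r =>
        2 * δ < |∑ n ∈ PQ L r e f, Real.log n - 25 * (s : ℝ) ^ (L - 1)|)).card : ℝ) * δ ^ 2 ≤ V := by
    intro e f he hf1 hf9
    have he10 : e < 10 := by
      simp only [mem_insert, mem_singleton] at he
      omega
    exact cheb RR (fun r => ∑ n ∈ PQ L r e f, Real.log n) hδ0 (hmean e f he hf1 hf9) (hmom e f he10 (by omega))
  -- the union
  have hcard : (((Fintype.piFinset (fun _ : Fin (L - 1) => RR)).filter (fun r => ¬ Good c s L r)).card : ℝ) * δ ^ 2 ≤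
      100 * V := by
    refine union_bd RR (fun r e f => ∑ n ∈ PQ L r e f, Real.log n) (by positivity) hcheb ?_
    intro r h2
    unfold Good at h2
    push Not at h2
    obtain ⟨e, f, he, hf1, hf9, h3⟩ := h2
    refine ⟨e, f, he, hf1, hf9, lt_of_le_of_lt (le_of_eq ?_) h3⟩
    rw [hδ]; ring
  -- numerics
  have hfin : 100 * V ≤ (RR.card : ℝ) ^ (L - 1) * Real.exp (-(c * t)) * δ ^ 2 :=
    num_fin hRR0.le hC1 (mul_pos hν0 hc'0) (by linarith) hcν hL0 ht3 ht4
  exact le_of_mul_le_mul_right (hcard.trans hfin) (by positivity)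

/-- the family `RR` of subsets with `s` elements is regular and connected -/
structure Con (s : ℕ) (RR : Finset (Finset Om)) : Prop where
  ne : RR.Nonempty
  card : ∀ R ∈ RR, R.card = s
  reg : ∀ w w' : Om, (RR.filter (fun R => w ∈ R)).card = (RR.filter (fun R => w' ∈ R)).card
  con : ∀ A : Finset Om, (∀ R ∈ RR, R ⊆ A ∨ Disjoint R A) → A = ∅ ∨ A = univ

lemma Con.pos {s : ℕ} {RR : Finset (Finset Om)} (h : Con s RR) : 1 ≤ s := by
  by_contra h0
  have hs : s = 0 := by omega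
  have h1 := h.con {((0 : Fin 10), (0 : Fin 10))} (fun R hR => by
    left
    have := h.card R hR
    rw [hs, card_eq_zero] at this
    rw [this]
    exact empty_subset _)
  rcases h1 with h1 | h1
  · simp at h1
  · have h2 : ((1 : Fin 10), (1 : Fin 10)) ∈ ({((0 : Fin 10), (0 : Fin 10))} : Finset Om) := by
      rw [h1]; exact mem_univ _
    simp at h2

lemma Con.uniq {s s' : ℕ} {RR : Finset (Finset Om)} (h : Con s RR) (h' : Con s' RR) : s = s' := by
  obtain ⟨R, hR⟩ := h.ne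
  rw [← h.card R hR, h'.card R hR]

lemma Good.mono {c c' : ℝ} (hcc : c' ≤ c) {s L : ℕ} {r : Fin (L - 1) → Finset Om} (h : Good c s L r) :
    Good c' s L r := by
  intro e f he hf1 hf9
  refine (h e f he hf1 hf9).trans ?_
  have : 0 ≤ √(L : ℝ) / Real.log L := div_nonneg (Real.sqrt_nonneg _) (Real.log_natCast_nonneg L)
  gcongr

open Classical in
/-- **almost all sequences of local conditions**, all connected families -/
theorem fin4 (hW : S_WAL2) (hM : S_MOM2) (hB : S_BIJ) (hP : S_PNT2) (hC : S_CON) :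
    ∃ c : ℝ, 0 < c ∧ ∃ L0 : ℕ, ∀ L : ℕ, L0 ≤ L → ∀ (s : ℕ) (RR : Finset (Finset Om)), Con s RR →
      (((Fintype.piFinset (fun _ : Fin (L - 1) => RR)).filter (fun r => ¬ Good c s L r)).card : ℝ) ≤
        (RR.card : ℝ) ^ (L - 1) * Real.exp (-(c * (√(L : ℝ) / Real.log L))) := by
  have h1 : ∀ RR : Finset (Finset Om), ∃ c : ℝ, 0 < c ∧ ∃ L0 : ℕ, ∀ L : ℕ, L0 ≤ L → ∀ s : ℕ, Con s RR →
      (((Fintype.piFinset (fun _ : Fin (L - 1) => RR)).filter (fun r => ¬ Good c s L r)).card : ℝ) ≤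
        (RR.card : ℝ) ^ (L - 1) * Real.exp (-(c * (√(L : ℝ) / Real.log L))) := by
    intro RR
    by_cases h : ∃ s, Con s RR
    · obtain ⟨s, hs⟩ := h
      obtain ⟨lam, h0, h1, hG⟩ := hC s RR hs.ne hs.card hs.reg hs.con
      obtain ⟨c, hc, L0, h2⟩ := fin3 hW hM hB hP h0 h1
      refine ⟨c, hc, L0, fun L hL s' hs' => ?_⟩
      rw [← hs.uniq hs']
      exact h2 L hL s RR hs.pos hG
    · exact ⟨1, one_pos, 0, fun L _ s hs => absurd ⟨s, hs⟩ h⟩
  choose c hc L0 h2 using h1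
  obtain ⟨R0, hR0⟩ := Finite.exists_min c
  obtain ⟨R1, hR1⟩ := Finite.exists_max L0
  refine ⟨c R0, hc R0, L0 R1, fun L hL s RR hs => ?_⟩
  have ht : 0 ≤ √(L : ℝ) / Real.log L := div_nonneg (Real.sqrt_nonneg _) (Real.log_natCast_nonneg L)
  have h3 := h2 RR L ((hR1 RR).trans hL) s hs
  have h4 : ((Fintype.piFinset (fun _ : Fin (L - 1) => RR)).filter (fun r => ¬ Good (c R0) s L r)) ⊆
      ((Fintype.piFinset (fun _ : Fin (L - 1) => RR)).filter (fun r => ¬ Good (c RR) s L r)) := by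
    intro r hr
    rw [mem_filter] at hr ⊢
    exact ⟨hr.1, fun hg => hr.2 (hg.mono (hR0 RR))⟩
  calc (((Fintype.piFinset (fun _ : Fin (L - 1) => RR)).filter (fun r => ¬ Good (c R0) s L r)).card : ℝ)
      ≤ (((Fintype.piFinset (fun _ : Fin (L - 1) => RR)).filter (fun r => ¬ Good (c RR) s L r)).card : ℝ) := by
        exact_mod_cast card_le_card h4
    _ ≤ _ := h3
    _ ≤ _ := by
        have := hR0 RR
        gcongr

end Pool.Agent.P8H18.DS
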