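import Pool.Agent.P8H18.RR.Fin4

/-!
# Project DS: the asymptotic formula for the good sequences
-/

set_option autoImplicit false

namespace Pool.Agent.P8H18.DS

open Finset Pool.Agent.P8H18.RR

/-- the asymptotic formula for the good sequences -/
theorem asym3 {c : ℝ} (hc : 0 < c) : ∀ ε : ℝ, 0 < ε → ∃ L1 : ℕ, ∀ L : ℕ, L1 ≤ L → ∀ s : ℕ, 1 ≤ s →
    ∀ r : Fin (L - 1) → Finset Om, Good c s L r →
    ∀ e f : ℕ, e ∈ ({1, 3, 7, 9} : Finset ℕ) → 1 ≤ f → f ≤ 9 →
      |((PQ L r e f).card : ℝ) / (25 * (s : ℝ) ^ (L - 1) / (2 * L * Real.log 10)) - 1| ≤ ε := by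
  intro ε hε
  have hlog10 : 0 < Real.log 10 := Real.log_pos (by norm_num)
  obtain ⟨L2, hL2⟩ := t_large (Real.log (2 / ε) / c)
  obtain ⟨L3, hL3⟩ := exists_nat_ge (2 / ε)
  refine ⟨max (max L2 L3) 1, fun L hL s hs r hr e f he hf1 hf9 => ?_⟩
  have h1 := hr e f he hf1 hf9
  have hLL2 : L2 ≤ L := ((le_max_left _ _).trans (le_max_left _ _)).trans hL
  have hLL3 : L3 ≤ L := ((le_max_right _ _).trans (le_max_left _ _)).trans hL
  have hL1 : 1 ≤ L := (le_max_right _ _).trans hL
  have hLr : (1 : ℝ) ≤ L := by exact_mod_cast hL1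
  have hL0 : (0 : ℝ) < L := by linarith
  have hs0 : (0 : ℝ) < s := by exact_mod_cast hs
  set T : ℝ := (s : ℝ) ^ (L - 1) with hT
  have hT0 : 0 < T := by positivity
  set l : ℝ := Real.log 10 with hl
  set S : ℝ := ∑ n ∈ PQ L r e f, Real.log n with hS
  set N : ℝ := ((PQ L r e f).card : ℝ) with hN
  have hN0 : 0 ≤ N := Nat.cast_nonneg _
  have hx : Real.exp (-(c * (√(L : ℝ) / Real.log L))) ≤ ε / 2 := by
    have h2 := hL2 L hLL2
    rw [div_le_iff₀ hc] at h2
    have h3 : Real.exp (-(c * (√(L : ℝ) / Real.log L))) ≤ Real.exp (-Real.log (2 / ε)) := by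
      rw [Real.exp_le_exp]; linarith
    rw [Real.exp_neg (Real.log _), Real.exp_log (by positivity), inv_div] at h3
    exact h3
  set x : ℝ := Real.exp (-(c * (√(L : ℝ) / Real.log L))) with hxd
  have hx0 : 0 < x := Real.exp_pos _
  have hLε : 1 / (L : ℝ) ≤ ε / 2 := by
    have h2 : 2 / ε ≤ L := hL3.trans (by exact_mod_cast hLL3)
    rw [div_le_iff₀ hε] at h2
    rw [div_le_iff₀ hL0]
    linarith
  have hbd : ∀ n ∈ PQ L r e f, 2 * L * l ≤ Real.log n ∧ Real.log n ≤ (2 * L + 1) * l := by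
    intro n hn
    unfold PQ PP at hn
    simp only [mem_filter, mem_range] at hn
    obtain ⟨⟨h2, h3, h4, h5⟩, _⟩ := hn
    have h6 : 10 ^ (2 * L) ≤ n := by
      by_contra h7
      push Not at h7
      have : dig n (2 * L) = 0 := by
        unfold dig
        rw [Nat.div_eq_of_lt h7]
      omega
    have h0 : (0 : ℝ) < n := by exact_mod_cast h3.pos
    constructor
    · have h8 : ((10 : ℝ) ^ (2 * L)) ≤ n := by exact_mod_cast h6
      have := Real.log_le_log (by positivity) h8
      rw [Real.log_pow] at this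
      push_cast at this
      exact this
    · have h8 : (n : ℝ) ≤ (10 : ℝ) ^ (2 * L + 1) := by exact_mod_cast h2.le
      have := Real.log_le_log h0 h8
      rw [Real.log_pow] at this
      push_cast at this
      exact this
  have hlow : N * (2 * L * l) ≤ S := by
    rw [hN, hS, ← nsmul_eq_mul, ← sum_const]
    exact sum_le_sum fun n hn => (hbd n hn).1
  have hup : S ≤ N * ((2 * L + 1) * l) := by
    rw [hN, hS, ← nsmul_eq_mul, ← sum_const]
    exact sum_le_sum fun n hn => (hbd n hn).2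
  obtain ⟨h2, h3⟩ := abs_le.1 h1
  have e1 : N / (25 * T / (2 * L * l)) = N * (2 * L * l) / (25 * T) := by
    field_simp
  rw [e1, abs_le]
  constructor
  · rw [le_sub_iff_add_le, le_div_iff₀ (by positivity)]
    -- (1 - ε) 25 T ≤ N 2 L l
    have h4 : (25 - x) * T ≤ N * ((2 * L + 1) * l) := by nlinarith
    have h5 : (2 * L + 1 : ℝ) * l * N * (1 - 1 / L) ≤ N * (2 * L * l) := by
      have h6 : (2 * L + 1 : ℝ) * (1 - 1 / L) ≤ 2 * L := by
        have : (2 * (L : ℝ) + 1) * (1 - 1 / L) = 2 * L - 1 - 1 / L := by field_simp; ring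
        rw [this]
        have : 0 < 1 / (L : ℝ) := by positivity
        linarith
      have h7 : 0 ≤ N * l := by positivity
      nlinarith
    have h8 : 0 ≤ 1 - 1 / (L : ℝ) := by
      rw [sub_nonneg, div_le_one hL0]; exact hLr
    have h9 : (25 - x) * T * (1 - 1 / L) ≤ N * (2 * L * l) := by
      refine le_trans (mul_le_mul_of_nonneg_right h4 h8) (le_trans (le_of_eq ?_) h5)
      ring
    refine le_trans ?_ h9
    have h10 : (25 - x) * (1 - 1 / (L : ℝ)) ≥ 25 * (1 - ε) := by
      have h11 : 0 ≤ 1 / (L : ℝ) := by positivity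
      nlinarith
    nlinarith
  · rw [sub_le_iff_le_add, div_le_iff₀ (by positivity)]
    nlinarith

/-- the diagonal: palindromes -/
theorem diag (L e p : ℕ) (he0 : e ≠ 0) :
    p ∈ PQ L (fun _ => univ.image (fun x : Fin 10 => (x, x))) e e ↔
      p < 10 ^ (2 * L + 1) ∧ p.Prime ∧ dig p 0 = e ∧ dig p (2 * L) ≠ 0 ∧ ∀ i ≤ 2 * L, dig p (2 * L - i) = dig p i := by
  have hmem : ∀ w : Om, w ∈ univ.image (fun x : Fin 10 => (x, x)) ↔ (w.2 : ℕ) = w.1 := by
    intro w
    simp only [mem_image, mem_univ, true_and]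
    constructor
    · rintro ⟨x, rfl⟩; rfl
    · intro h
      exact ⟨w.1, Prod.ext rfl (Fin.ext h.symm)⟩
  unfold PQ PP
  simp only [mem_filter, mem_range, hmem]
  constructor
  · rintro ⟨⟨h1, h2, h3, h4⟩, h5⟩
    refine ⟨h1, h2, h3, by omega, fun i hi => ?_⟩
    have key : ∀ j : ℕ, j ≤ L → dig p (2 * L - j) = dig p j := by
      intro j hj
      rcases Nat.eq_zero_or_pos j with rfl | hj0
      · rw [Nat.sub_zero, h3, h4]
      · rcases hj.lt_or_eq with h | rfl
        · have := h5 ⟨j - 1, by omega⟩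
          unfold pr at this
          simp only [dg_val, Nat.sub_add_cancel hj0] at this
          exact this
        · congr 1
          omega
    rcases le_total i L with h | h
    · exact key i h
    · have := key (2 * L - i) (by omega)
      rw [show 2 * L - (2 * L - i) = i by omega] at this
      exact this.symm
  · rintro ⟨h1, h2, h3, h4, h5⟩
    refine ⟨⟨h1, h2, h3, ?_⟩, fun i => h5 _ (by have := i.2; omega)⟩
    rw [← h3]
    have := h5 0 (Nat.zero_le _)
    rw [Nat.sub_zero] at this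
    exact this

end Pool.Agent.P8H18.DS
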