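import Mathlib

/-!
# Project RR: primes with mirrored digits coupled by almost all rules

Theorem (by project RR).  Let `Sg` be a set of permutations of the ten digits that is 2-transitive in the sense
of `TwoTr` (for instance all permutations, or `PSL_2(9)`).  For all but at most
`|Sg|^(L-1) exp(-c sqrt L / log L)` of the rules `(s_1, ..., s_(L-1))` in `Sg^(L-1)` and for all last digits `e` and
first digits `f` the number of primes `p` with `2 L + 1` digits such that the digit at place `2 L - i` is `s_i` of the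
digit at place `i` for all `1 <= i < L` is what is expected, with error at most `10^L exp(-c sqrt L / log L)`.

All packages are independent of each other; every input is an explicit hypothesis.
`dig n i` is the digit of `n` at place `i` (place `0` is the last digit), `ee x = exp (2 pi i x)`.
-/

set_option autoImplicit false

namespace Pool.Agent.P8H18.RR

open Finset

/-- the digit of `n` at place `i` -/
def dig (n i : ℕ) : ℕ := n / 10 ^ i % 10

/-- `e(x) = exp(2 pi i x)` (the same expression as `Pool.Agent.H807R2.Dav.ee`, which has many lemmas) -/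
noncomputable def ee (x : ℝ) : ℂ := Complex.exp (2 * Real.pi * Complex.I * x)

/-- the exponential sum over prime powers (the same expression as `Pool.Agent.W301.SS.SL`) -/
noncomputable def SL (N : ℕ) (α : ℝ) : ℂ :=
  ∑ n ∈ Icc 1 N, ((ArithmeticFunction.vonMangoldt n : ℝ) : ℂ) * ee ((n : ℝ) * α)

/-- the frequency `sum over i in U of h_i / 10^(i+1)` -/
noncomputable def fr (U : Finset ℕ) (h : ℕ → ℤ) : ℝ := ∑ i ∈ U, (h i : ℝ) / 10 ^ (i + 1)

/-- trigonometric polynomial of degree at most `H` in `n / 10^(i+1)` -/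
noncomputable def tp (c : ℤ → ℂ) (H i n : ℕ) : ℂ :=
  ∑ h ∈ Icc (-(H : ℤ)) H, c h * ee ((h : ℝ) * n / 10 ^ (i + 1))

/-! ### Statements -/

/-- (PSI, second half of the L-function part; see `StmZ.lean` for the package `psi : S_REG10 → S_PXC → S_PSI`)
prime number theorem for the nontrivial characters to the moduli `10^j`, uniformly for `10^j <= exp(c sqrt D)` -/
def S_PSI : Prop := ∃ c C : ℝ, 0 < c ∧ 0 < C ∧ ∀ D : ℕ, 1 ≤ D → ∀ j : ℕ,
  (10 : ℝ) ^ j ≤ Real.exp (c * √(D : ℝ)) → ∀ χ : DirichletCharacter ℂ (10 ^ j), χ ≠ 1 →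
  ∀ x : ℕ, x ≤ 10 ^ D →
    ‖∑ n ∈ Icc 1 x, χ (n : ZMod (10 ^ j)) * ((ArithmeticFunction.vonMangoldt n : ℝ) : ℂ)‖ ≤
      C * 10 ^ D * Real.exp (-(c * √(D : ℝ)))

/-- (MAJ) major arcs: denominators `q | 10^D` that do not divide `10` have no main term. -/
def S_MAJ : Prop := ∃ c C : ℝ, 0 < c ∧ 0 < C ∧ ∀ D : ℕ, 1 ≤ D → ∀ (q : ℕ) (a : ℤ), 1 ≤ q →
  q ∣ 10 ^ D → ¬ q ∣ 10 → IsCoprime a (q : ℤ) → (q : ℝ) ≤ Real.exp (c * √(D : ℝ)) →
  ∀ β : ℝ, |β| ≤ Real.exp (c * √(D : ℝ)) / 10 ^ D → ∀ x : ℕ, x ≤ 10 ^ D →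
    ‖SL x ((a : ℝ) / q + β)‖ ≤ C * 10 ^ D * Real.exp (-(c * √(D : ℝ)))

/-- (package MAJ, 180 lines) `maj : S_MAJA`.
Proof.  Let `c0, C0` be the constants of `S_PSI`; `c = c0 / 20`.  Put `J = Nat.clog 2 q` (so `q <= 2^J < 2 q`; `q >= 4`
as `q` does not divide `10`).  As `q = 2^u 5^v` with `2^u, 5^v <= q` we have `u, v <= J`, so `q | 10^J =: M`, and
`10^J <= 10 * q^4 <= exp (c0 sqrt D)` up to finitely many `D` (if `D` is bounded, or whenever `10^J > exp(c0 sqrt D)`,
use the trivial bound `|SL x| <= x (1 + log x)` and enlarge `C`).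
(1) `n` not coprime to `10`: `Lambda(n) <> 0` only for powers of `2` and `5`; their contribution is at most `C (1 + D)^2`.
(2) For `(n, 10) = 1`: `e(n a / q)` depends on `n mod M`, and orthogonality of characters mod `M` gives
`sum_{n <= y, (n,10)=1} Lambda(n) e(n a/q) = (1/phi(M)) sum_chi (sum_{b in (Z/M)^*} conj chi(b) e(a b/q)) psi(y, chi)`.
(3) The coefficient of the principal character vanishes: since `q | 10^J` does not divide `10`, there is a prime
`p in {2, 5}` with `p^2 | q`.  Let `q = p^k m`, `k >= 2`, `(m, p) = 1`.  The shift `b -> b + (q / p) r^J` (`r` the other prime)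
maps `(Z/M)^*` bijectively to itself (the shift is divisible by `p` because `p | q / p`, and by `r` if `J >= 1`), and multiplies
`e(a b/q)` by `e(a r^J / p) <> 1`.  Hence the sum is `0`.
(4) All other characters: `S_PSI`; the coefficients are at most `phi(M)` in absolute value, there are `phi(M)` characters, so
the sum in (2) is at most `M C0 10^D exp(-c0 sqrt D)`, and `M <= 10 q^4 <= 10 exp(4 c sqrt D)`.
(5) Partial summation with `e(n beta)`: `|e(n beta) - e((n+1) beta)| <= 2 pi |beta|`, so one loses a factor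
`1 + 2 pi |beta| 10^D <= 8 exp(c sqrt D)`.
Mathlib: `DirichletCharacter.sum_char_inv_mul_char_eq`. -/
def S_MAJA : Prop := S_PSI → S_MAJ

/-- (package GAP, 120 lines) `gap : S_GAP`.
A frequency with few digits positions has no good approximation with small denominator, except with denominators
dividing a power of `10` but not `10`.
Proof.  The `|U| + 1` windows `(r_k, r_k + G]`, `r_k = L + k (G + 1)`, `k = 0, ..., |U|` are disjoint, so one of them contains no
element of `U`; call it `(r, r + G]`; `L <= r < 2 L - T`.  Write `fr U h = A / 10^(r+1) + R`, with the integer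
`A = sum over i in U, i <= r of h_i 10^(r-i)`, and `|R| <= H / (9 * 10^(r+G+1))`.  If `A / 10^(r+1) <> a/q` then they differ
by at least `1 / (Q 10^(r+1))`, but the difference is at most `H / (9 * 10^(r+G+1)) + Q / 10^(2L+1) < 1/(Q 10^(r+1))` by
`4 H Q <= 10^G` and `4 Q^2 <= 10^T`, `r < 2 L - T`.  So `A / 10^(r+1) = a/q`, and `q | 10^(r+1) | 10^(2L+1)` by coprimality.
Suppose `q | 10`: then `A = 10^r a'` with an integer `a'`.  Let `i* = max {i in U : i <= r}`: it exists and `1 <= i* <= r < 2 L`, by the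
hypothesis that `U` has an element in `[1, L)`.  `A = 10^(r - i*) (h_(i*) + 10 k)`, so `h_(i*) + 10 k = 10^(i*) a'` and `10 | h_(i*)`:
contradiction. -/
def S_GAP : Prop := ∀ (L G T H Q : ℕ) (U : Finset ℕ) (h : ℕ → ℤ), 1 ≤ H → 1 ≤ Q →
  U ⊆ range (2 * L + 1) → (∀ i ∈ U, |h i| ≤ (H : ℤ)) →
  (∀ i ∈ U, i ≠ 0 → i ≠ 2 * L → ¬ (10 : ℤ) ∣ h i) → (∃ i ∈ U, 1 ≤ i ∧ i < L) →
  (U.card + 1) * (G + 1) + T + 2 ≤ L → 4 * H * Q ≤ 10 ^ G → 4 * Q ^ 2 ≤ 10 ^ T →
  ∀ (a : ℤ) (q : ℕ), 1 ≤ q → q ≤ Q → IsCoprime a (q : ℤ) →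
    |fr U h - (a : ℝ) / q| ≤ (Q : ℝ) / 10 ^ (2 * L + 1) →
    q ∣ 10 ^ (2 * L + 1) ∧ ¬ q ∣ 10

/-- (EXP) the exponential sums over prime powers at the frequencies with few positions -/
def S_EXP : Prop := ∃ c C : ℝ, 0 < c ∧ 0 < C ∧ ∃ L0 : ℕ, ∀ L : ℕ, L0 ≤ L →
  ∀ (U : Finset ℕ) (h : ℕ → ℤ), U ⊆ range (2 * L + 1) → (U.card : ℝ) ≤ c * √(L : ℝ) / Real.log L →
  (∀ i ∈ U, (|h i| : ℝ) ≤ Real.exp (c * √(L : ℝ))) →
  (∀ i ∈ U, i ≠ 0 → i ≠ 2 * L → ¬ (10 : ℤ) ∣ h i) → (∃ i ∈ U, 1 ≤ i ∧ i < L) →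
  ∀ x : ℕ, x ≤ 10 ^ (2 * L + 1) →
    ‖SL x (fr U h)‖ ≤ C * 10 ^ (2 * L + 1) * Real.exp (-(c * √(L : ℝ)))

/-- (package EXP, 200 lines) `expo : S_EXPA`.
Proof.  `N = 10^(2L+1)`, `D = 2 L + 1`, `c0, C0` from `S_MAJ`; `Q = floor (exp (c1 sqrt L))`, `H = floor (exp(c sqrt L))`, with small
`c1 = c0 / 4`, `c = c1 / 10` (or smaller).  `x >= 1`.  Dirichlet (`Real.exists_int_int_abs_mul_sub_le`, reduced fraction)
with the bound `n = N / Q`: there are coprime `a, q` with `1 <= q <= N / Q` and `|alpha - a/q| <= 1 / (q (n + 1)) <= Q / (q N)`,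
where `alpha = fr U h`.
Case `q > Q`: Vinogradov `Pool.Agent.W301.SS.vino` (module Pool.Agent.W301.SS.Vino; `|alpha - a/q| <= 1/q^2` as `q <= n`),
`VB_mono`, gives `C (1 + log N)^7 (N / sqrt q + N^(4/5) + sqrt (N q)) <= C' L^7 (2 N / sqrt Q + N^(4/5))`.
Case `q <= Q`: `|alpha - a/q| <= Q / N`, so `S_GAP` (with `G = ceil` of `log_10 (4 H Q)`, `T = ceil` of `log_10 (4 Q^2)`;
`(|U| + 1)(G + 1) + T + 2 <= L` for large `L` since `|U| <= c sqrt L / log L` and `G, T = O(sqrt L)`) shows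
`q | 10^(2L+1)`, `q` does not divide `10`, and `S_MAJ` with `D = 2 L + 1` and `beta = alpha - a/q` finishes. -/
def S_EXPA : Prop := S_MAJ → S_GAP → S_EXP

/-- (package PRI, 80 lines) `pri : S_PRI`.  From prime powers to primes by partial summation.
Proof.  `sum_{p <= y} log p e(p alpha)` differs from `SL y alpha` by at most `psi(y) - theta(y) <= 2 sqrt y log y`
(Mathlib, `Chebyshev.abs_psi_sub_theta_le_sqrt_mul_log` or a direct argument), then Abel summation with the decreasing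
weights `1 / log n <= 1 / log 2`, `n >= 2`. -/
def S_PRI : Prop := ∃ C : ℝ, 0 < C ∧ ∀ N : ℕ, 1 ≤ N → ∀ α B : ℝ, 0 ≤ B → (∀ y : ℕ, y ≤ N → ‖SL y α‖ ≤ B) →
  ∀ x : ℕ, x ≤ N → ‖∑ p ∈ (Icc 1 x).filter Nat.Prime, ee ((p : ℝ) * α)‖ ≤ C * (B + √(N : ℝ) * (1 + Real.log N))

/-- (package DIG, 200 lines) `digp : S_DIG`.  Trigonometric approximation of the indicator of one digit.
Proof.  `M = 10^(i+1)`, `F(n) = 1` if `dig n i = d`, a function on `Z/M`: the indicator of the residues in the interval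
`[d 10^i, (d+1) 10^i)`.  `chat(h) = (1/M) sum_{r < M} F(r) e(-h r/M)`: a geometric sum, so `chat(0) = 1/10`,
`chat(h) = 0` if `10 | h`, `M` not dividing `h`, and `|chat(h)| <= 1 / (2 M ||h/M||)` otherwise (`|1 - e(t)| >= 4 ||t||`).
If `M <= H`: `c(h) = chat(h)` for `0 <= h < M`, `c(h) = 0` otherwise; `tp` is exactly `F(n)` (finite Fourier inversion).
If `M > H`: `K = H / 2` (natural number, `K >= 10`), `c(h) = (1 - |h|/K) chat(h)` for `|h| < K`, `0` otherwise.  Then
`tp c H i n = sum_{r mod M} F(n - r) k(r)` with the Fejer kernel `k(r) = (1/(M K)) |sum_{0 <= l < K} e(l r/M)|^2 >= 0`,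
`sum_{r mod M} k(r) = 1` (because `K <= M`).  So `tp` is real in `[0, 1]`, and
`sum_{n mod M} |F(n) - tp(n)| <= sum_r k(r) sum_n |F(n) - F(n-r)| <= sum_r k(r) 2 min(r, M - r)`, where
`k(r) <= M / (4 K min(r, M-r)^2)`: total `<= (M / K) (1 + log M)`.  Multiply with the number `10^D / M` of periods.
`||h/M|| = |h|/M` for `|h| < K <= M/2`.  (Working with real-valued sums and sums over `range M` is convenient;
`Pool.Agent.H807R2.Dav` has `ee`, `dd_ge`, geometric sums.) -/
def S_DIG : Prop := ∃ C : ℝ, 0 < C ∧ ∀ D i d H : ℕ, i < D → d < 10 → 20 ≤ H → ∃ c : ℤ → ℂ,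
  c 0 = 1 / 10 ∧ (∀ h : ℤ, (10 : ℤ) ∣ h → h ≠ 0 → c h = 0) ∧
  ∑ h ∈ Icc (-(H : ℤ)) H, ‖c h‖ ≤ C * Real.log H ∧
  (∀ n : ℕ, ‖tp c H i n‖ ≤ 1) ∧ (∀ n : ℕ, ‖tp c H i n - 1 / 10‖ ≤ 1) ∧
  ∑ n ∈ range (10 ^ D), ‖(if dig n i = d then (1 : ℂ) else 0) - tp c H i n‖ ≤ C * D * 10 ^ D / H

/-- (WAL) correlations of the primes with the balanced functions of few pairs of mirrored digits -/
def S_WAL : Prop := ∃ c C : ℝ, 0 < c ∧ 0 < C ∧ ∃ L0 : ℕ, ∀ L : ℕ, L0 ≤ L →
  ∀ S : Finset ℕ, S.Nonempty → S ⊆ Ioo 0 L → (S.card : ℝ) ≤ c * √(L : ℝ) / Real.log L →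
  ∀ (d d' : ℕ → ℕ) (e f : ℕ), (∀ i, d i < 10) → (∀ i, d' i < 10) → e < 10 → f < 10 →
    |∑ n ∈ (range (10 ^ (2 * L + 1))).filter (fun n => n.Prime ∧ dig n 0 = e ∧ dig n (2 * L) = f),
      ∏ i ∈ S, (((if dig n i = d i then (1 : ℝ) else 0) - 1 / 10) *
        ((if dig n (2 * L - i) = d' i then (1 : ℝ) else 0) - 1 / 10))| ≤
      C * 10 ^ (2 * L + 1) * Real.exp (-(c * √(L : ℝ)))

/-- (package WAL, 250 lines) `wal : S_WALA`.
Proof.  `D = 2 L + 1`, `N = 10^D`, `c0, C0` from `S_EXP`, `H = floor (exp (c0 sqrt L))`, `U` = union of `S`, `{2 L - i : i in S}`, `{0, 2 L}`: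
disjoint, `|U| = 2 |S| + 2 <= 4 |S|`.  For the positions `i in U` take the polynomials of `S_DIG` (digit `d_i`, `d'_i`, `e`, `f`):
`tp c_i H i n` for `i = 0, 2 L` and `tp c_i H i n - 1/10 = sum_{h <> 0}` for the others: all factors and all approximations are
bounded by `1`, so the product differs from the product of the approximations by at most the sum of the differences
(`|prod f_j - prod g_j| <= sum |f_j - g_j|`), in total `<= |U| C D N / H` after summing over `n < N`.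
Expand the product of the approximations: `sum over (h_i)_{i in U}` (`Finset.prod_univ_sum`/`Finset.prod_sum`) of
`prod c_i(h_i) * e(n fr U h)`; only `h` with `10` not dividing `h_i` for `i <> 0, 2 L` occur and `|h_i| <= H`.  The sum over the primes
`n < N` of `e(n fr U h)` is at most `C (C0 N exp(-c0 sqrt L) + sqrt N (1 + log N))` by `S_PRI` and `S_EXP` (an element of `S`
is the element of `U` in `[1, L)`), and
`prod sum |c_i| <= (C log H)^|U| <= exp (|U| log L) <= exp(4 c sqrt L)` for large `L`.  Choose `c` small. -/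
def S_WALA : Prop := S_EXP → S_PRI → S_DIG → S_WAL

/-- the set `Sg` of permutations of the digits is 2-transitive -/
def TwoTr (Sg : Finset (Equiv.Perm (Fin 10))) : Prop :=
  ∀ x x' y y' : Fin 10, x ≠ x' → y ≠ y' →
    90 * (Sg.filter (fun s => s x = y ∧ s x' = y')).card = Sg.card

/-- the kernel of the projection to the functions with mean zero -/
noncomputable def aa (x x' : Fin 10) : ℝ := (if x = x' then 1 else 0) - 1 / 10

/-- (package MOM, 250 lines) `mom : S_MOM`.  Second moment over the rules.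
Proof.  Write `E` for the mean over `s in Sg^n` and `om = (x, y)`, `om_i = (x_i, y_i)`.
(1) For one coordinate: `P(s x = y) = 1/10` and
`P(s x = y, s x' = y') = 1/100 + R(om, om') / 9`, `R(om, om') = aa x x' * aa y y'`
(check the cases: `x = x', y = y'`: `1/10`; exactly one equality: `0`; none: `1/90`).
(2) Hence `E Count = sum g / 10^n`, where `Count(s) = sum_x g x (s x) = sum_{x, y} g x y prod_i 1[s_i x_i = y_i]`, and
`E Count^2 = sum_{om, om'} g(om) g(om') prod_i (1/100 + R(om_i, om'_i)/9) = sum_S 9^(-|S|) Q_S`,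
`Q_S = sum_{om, om'} g(om) g(om') M_S(om, om')`, `M_S = prod_{i in S} R(om_i, om'_i) prod_{i not in S} (1/100)` (`Finset.prod_add`);
the term of the empty `S` is `(E Count)^2`.  (Independence of the coordinates: `Finset.prod_univ_sum`, `Fintype.piFinset`.)
(3) In one coordinate `R o R = R`, `(R + 1/100) o (R + 1/100) = R + 1/100` (composition = sum over the 100 middle values;
`sum_z aa x z * aa z x' = aa x x'`, `sum_z aa x z = 0`), so `M_S o M_S = M_S`, whence
`Q_S = sum_om'' (sum_om M_S(om'', om) g(om))^2 >= 0`; and `M = sum_S M_S = prod_i (R + 1/100)` is symmetric with `M o M = M`,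
so `sum_S Q_S = <g, M g> <= ||g||^2` because `0 <= ||g - M g||^2 = ||g||^2 - <g, M g>`.  `||g||^2 <= B^2 100^n`.
(4) `|S| > K`: `sum 9^(-|S|) Q_S <= 9^(-K) ||g||^2`.
(5) `1 <= |S| <= K`: `9^(-|S|) Q_S <= 9^(-|S|) 100^(|S| - n) * sum_om' |g(om')| * W <= (100/9)^|S| B W <= 12^K B W`,
and there are at most `(n + 1)^K` such sets (they are the images of the maps `Fin K → Option (Fin n)`). -/
def S_MOM : Prop := ∀ (n : ℕ) (Sg : Finset (Equiv.Perm (Fin 10))), Sg.Nonempty → TwoTr Sg →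
  ∀ (g : (Fin n → Fin 10) → (Fin n → Fin 10) → ℝ) (K : ℕ) (B W : ℝ), 0 ≤ B → 0 ≤ W →
  (∀ x y, |g x y| ≤ B) →
  (∀ S : Finset (Fin n), S.Nonempty → S.card ≤ K → ∀ x' y' : Fin n → Fin 10,
    |∑ x, ∑ y, g x y * ∏ i ∈ S, (aa (x i) (x' i) * aa (y i) (y' i))| ≤ W) →
  ∑ s ∈ Fintype.piFinset (fun _ : Fin n => Sg),
    ((∑ x, g x (fun i => s i (x i))) - (∑ x, ∑ y, g x y) / 10 ^ n) ^ 2 ≤
    (Sg.card : ℝ) ^ n * (B ^ 2 * 100 ^ n / 9 ^ K + ((n + 1) * 12) ^ K * (B * W))

/-- (package BIJ, 60 lines) `bij : S_BIJ`.  Only the middle digit is free.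
Proof.  The map `n -> dig n L` is injective on the set: two numbers `< 10^(2L+1)` with the same digits at all
places `< 2 L + 1` are equal (induction, or `Nat.ofDigits`); every place in `[0, 2 L]` is `0`, `2 L`, `L`, `i + 1` or `2 L - (i + 1)` with
`i < L - 1`. -/
def S_BIJ : Prop := ∀ (L e f : ℕ), 1 ≤ L → ∀ x y : Fin (L - 1) → Fin 10,
  ((range (10 ^ (2 * L + 1))).filter (fun n => dig n 0 = e ∧ dig n (2 * L) = f ∧
    (∀ i : Fin (L - 1), dig n (i + 1) = x i) ∧ (∀ i : Fin (L - 1), dig n (2 * L - (i + 1)) = y i))).card ≤ 10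

/-- (package PNTM, 120 lines) `pntm : S_PNTM`.  The number of primes with given first and last digit.
Proof.  It is `pi(f+1) - pi(f)` with `pi(g) = #{p < g 10^(2L) : p = e mod 10}`; by the prime number theorem in residue classes
(`Pool.Agent.Cov.PNT`: `pnt_residueClass`; or any other form in the library for the counting function of primes in residue classes)
`pi(g) ~ g 10^(2L) / (4 log (g 10^(2L))) ~ g 10^(2L) / (8 L log 10)`; the difference of the two main terms is the claim. -/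
def S_PNTM : Prop := ∀ e f : ℕ, e ∈ ({1, 3, 7, 9} : Finset ℕ) → 1 ≤ f → f ≤ 9 →
  Filter.Tendsto (fun L : ℕ =>
    (((range (10 ^ (2 * L + 1))).filter (fun n => n.Prime ∧ dig n 0 = e ∧ dig n (2 * L) = f)).card : ℝ) /
      (10 ^ (2 * L) / (8 * L * Real.log 10))) Filter.atTop (nhds 1)

end Pool.Agent.P8H18.RR
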