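import Pool.Agent.P8H18.RR.Stm2

/-!
# Project DS: primes with random local conditions on the pairs of mirrored digits

`Om = Fin 10 × Fin 10` is the set of the pairs (digit at place `i`, digit at place `2 L - i`).  Let `RR` be a set of subsets of
`Om` with `s` elements each, such that every point of `Om` is in the same number of members, with a spectral gap `lam < 1`
(`Gap`; for example the graphs of all permutations, `s = 10`, `lam = 1/9`; all subsets with two elements, `s = 2`, `lam = 49/99`).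
Theorem (by project DS): for all but `|RR|^(L-1) exp(-c sqrt L / log L)` of the sequences `(R_1, ..., R_(L-1))` in `RR^(L-1)` and
all `e` in `{1, 3, 7, 9}`, `1 <= f <= 9`: the sum of `log p` over the primes `p` with `2 L + 1` digits, last digit `e`, first digit `f`
and `(digit i, digit (2 L - i))` in `R_i` for `1 <= i < L` is `25 s^(L-1)` up to `s^(L-1) exp(-c sqrt L / log L)`.
(It contains AlmostAllRules; for `s = 2` the sets have `N^0.15` elements.)

All packages are independent of each other.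
-/

set_option autoImplicit false

namespace Pool.Agent.P8H18.DS

open Finset Pool.Agent.P8H18.RR

/-- (package GAP2, 120 lines) `gap2 : S_GAP2`.  Copy of `Pool.Agent.P8H37.RR.gap` (module Pool.Agent.P8H37.RR.BijGap) with the windows
`(r_k, r_k + G]`, `r_k = i0 + k (G + 1)`, `k = 0, ..., |U|` (there `L` instead of `i0`): `r < 2 L - T`, the largest element `i*` of `U` with `i* <= r` exists
and `1 <= i0 <= i* < 2 L`. -/
def S_GAP2 : Prop := ∀ (i0 L G T H Q : ℕ) (U : Finset ℕ) (h : ℕ → ℤ), 1 ≤ H → 1 ≤ Q →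
  U ⊆ range (2 * L + 1) → (∀ i ∈ U, |h i| ≤ (H : ℤ)) →
  (∀ i ∈ U, i ≠ 0 → i ≠ 2 * L → ¬ (10 : ℤ) ∣ h i) → i0 ∈ U → 1 ≤ i0 →
  i0 + (U.card + 1) * (G + 1) + T + 2 ≤ 2 * L → 4 * H * Q ≤ 10 ^ G → 4 * Q ^ 2 ≤ 10 ^ T →
  ∀ (a : ℤ) (q : ℕ), 1 ≤ q → q ≤ Q → IsCoprime a (q : ℤ) →
    |fr U h - (a : ℝ) / q| ≤ (Q : ℝ) / 10 ^ (2 * L + 1) →
    q ∣ 10 ^ (2 * L + 1) ∧ ¬ q ∣ 10

/-- the sum over the integers prime to `10` -/
noncomputable def CP (x : ℕ) (α : ℝ) : ℂ := ∑ n ∈ (Icc 1 x).filter (fun n => n.Coprime 10), ee ((n : ℝ) * α)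

/-- primes with logarithmic weight minus the expected density of the integers prime to `10` -/
noncomputable def TH (x : ℕ) (α : ℝ) : ℂ :=
  ∑ p ∈ (Icc 1 x).filter Nat.Prime, ((Real.log p : ℝ) : ℂ) * ee ((p : ℝ) * α) - 5 / 2 * CP x α

/-- (package COP, 60 lines) `cop : S_COP`.
Proof.  `CP x al = sum over d | 10 of mu(d) sum_{m <= x/d} e(d m al)`; each inner sum is geometric, at most `1 / (2 ||d al||)`
(`|1 - e(t)| >= 4 ||t||`), and `||d al|| >= ||d a/q|| - d / (20 q) >= 1/q - 1/(2 q)` for `d = 1, 2, 5, 10`, because `q` does not divide `d a`.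
So `|CP| <= 4 q`. -/
def S_COP : Prop := ∀ (x q : ℕ) (a : ℤ) (α : ℝ), 1 ≤ q → ¬ q ∣ 10 → IsCoprime a (q : ℤ) →
  |α - (a : ℝ) / q| ≤ 1 / (20 * q) → ‖CP x α‖ ≤ 8 * q

/-- (package TH1, 120 lines) `th1 : S_TH1A`.
Proof.  `S_APX (1/2)` with `K = 1`: for `b` in `{1, 3, 7, 9}` the sum of `log p`, `p = b mod 10`, `p <= y`, is `y/4 + O(N exp(-c0 sqrt L))`
(`phi(10) = 4`; `exp(c0 L^(1/2)) >= 10` for large `L`, for small `L` the trivial bound), the number of `n <= y`, `n = b mod 10` is `y/10 + O(1)`, and `5/2 * y/10 = y/4`.  So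
`TH y (a/q)`, `q | 10`, is `O(N exp(-c0 sqrt L))` for all `y <= N` (`e(n a/q)` depends on `n mod 10` only; the primes `2, 5` contribute `O(1)`).
Partial summation with `e(n beta)` loses the factor `1 + 2 pi |beta| N <= 8 exp(c sqrt L)`, `c = c0/2`. -/
def S_TH1 : Prop := ∃ c C : ℝ, 0 < c ∧ 0 < C ∧ ∀ L : ℕ, 1 ≤ L → ∀ (q : ℕ) (a : ℤ), 1 ≤ q → q ∣ 10 →
  ∀ β : ℝ, |β| ≤ Real.exp (c * √(L : ℝ)) / 10 ^ (2 * L + 1) → ∀ x : ℕ, x ≤ 10 ^ (2 * L + 1) →
    ‖TH x ((a : ℝ) / q + β)‖ ≤ C * 10 ^ (2 * L + 1) * Real.exp (-(c * √(L : ℝ)))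

/-- see `S_TH1` -/
def S_TH1A : Prop := AR.S_APX (1 / 2) → S_TH1

/-- (package EXP2, 250 lines) `exp2 : S_EXP2A`.  Adaptation of `Pool.Agent.P8H75.RRP.expo` (module Pool.Agent.P8H75.RRP.Expo).
Proof.  `N = 10^(2L+1)`, `Q = floor (exp (c1 sqrt L))`, `H = floor (exp (c sqrt L))`, `G, T` as there, `al = fr U h`.  Dirichlet: `a/q`
reduced with `q <= N/Q`, `|al - a/q| <= Q / (q N)`.  The sum of `log p e(p al)` differs from `SL x al` by at most `2 sqrt x log x`.
If `q > Q` (so `q` does not divide `10`): Vinogradov for `SL` and `S_COP` for `CP`: `|CP| <= 8 q <= 8 N / Q` (`Q/(q N) <= 1/(20 q)`).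
If `q <= Q`: let `i1` be the least element of `U` in `[1, 2 L)`, `T2 = (|U| + 1)(G + 1) + T + 2 <= L` for large `L`.
Case `i1 + T2 <= 2 L`: `S_GAP2` with `i0 = i1`: `q | 10^(2L+1)`, not `q | 10`: `S_MAJ` (`D = 2 L + 1`) for `SL` and `S_COP` for `CP`.
Case `i1 + T2 > 2 L`: all elements of `U` except possibly `0` are `>= i1 > 2 L - T2`, so `al = h_0/10 + b0` (`h_0 = 0` if `0` is not in `U`) with
`|b0| <= H / (9 * 10^(i1)) <= 1/(40 Q)`.  If `q` did not divide `10` then `1/(10 q) <= |h_0/10 - a/q| <= 1/(40 Q) + Q/(q N) <= 1/(20 q)`: impossible.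
So `q | 10`, and `S_TH1` with `beta = al - a/q`, `|beta| <= Q/N` finishes. -/
def S_EXP2 : Prop := ∃ c C : ℝ, 0 < c ∧ 0 < C ∧ ∃ L0 : ℕ, ∀ L : ℕ, L0 ≤ L →
  ∀ (U : Finset ℕ) (h : ℕ → ℤ), U ⊆ range (2 * L + 1) → (U.card : ℝ) ≤ c * √(L : ℝ) / Real.log L →
  (∀ i ∈ U, (|h i| : ℝ) ≤ Real.exp (c * √(L : ℝ))) →
  (∀ i ∈ U, i ≠ 0 → i ≠ 2 * L → ¬ (10 : ℤ) ∣ h i) → (∃ i ∈ U, 1 ≤ i ∧ i < 2 * L) →
  ∀ x : ℕ, x ≤ 10 ^ (2 * L + 1) →
    ‖TH x (fr U h)‖ ≤ C * 10 ^ (2 * L + 1) * Real.exp (-(c * √(L : ℝ)))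

/-- see `S_EXP2` -/
def S_EXP2A : Prop := S_MAJ → S_GAP2 → S_COP → S_TH1 → S_EXP2

/-- the balanced indicator of the pair `(d, d')` of digits at the places `i`, `2 L - i` -/
noncomputable def bal (L i d d' n : ℕ) : ℝ := (if dig n i = d ∧ dig n (2 * L - i) = d' then 1 else 0) - 1 / 100

/-- (package ZERO, 100 lines) `zero : S_ZERO`.
Proof.  Take `j` in `S`.  Group the `n` by all digits except those at the places `j` and `2 L - j` (`1 <= j < L`, so `j`, `2 L - j`, `0`, `2 L` are different):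
in a group the `100` values of this pair of digits occur once each, the other factors and conditions (also being prime to `10`, which depends on the
digit `0`) do not change, and the sum of `bal` over the group is `1 - 100/100 = 0`.  (For example: the sum is the sum over the pairs `(u, v)` of digits and the
`m < 10^(2L+1)` with `dig m j = dig m (2 L - j) = 0` of the value at `n = m + u 10^j + v 10^(2L-j)`.) -/
def S_ZERO : Prop := ∀ (L : ℕ) (S : Finset ℕ), S.Nonempty → S ⊆ Ioo 0 L → ∀ (d d' : ℕ → ℕ) (e f : ℕ),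
  (∀ i, d i < 10) → (∀ i, d' i < 10) →
  ∑ n ∈ (range (10 ^ (2 * L + 1))).filter (fun n => n.Coprime 10 ∧ dig n 0 = e ∧ dig n (2 * L) = f),
    ∏ i ∈ S, bal L i (d i) (d' i) n = 0

/-- (WAL2) -/
def S_WAL2 : Prop := ∃ c C : ℝ, 0 < c ∧ 0 < C ∧ ∃ L0 : ℕ, ∀ L : ℕ, L0 ≤ L →
  ∀ S : Finset ℕ, S.Nonempty → S ⊆ Ioo 0 L → (S.card : ℝ) ≤ c * √(L : ℝ) / Real.log L →
  ∀ (d d' : ℕ → ℕ) (e f : ℕ), (∀ i, d i < 10) → (∀ i, d' i < 10) → e < 10 → f < 10 →
    |∑ n ∈ (range (10 ^ (2 * L + 1))).filter (fun n => n.Prime ∧ dig n 0 = e ∧ dig n (2 * L) = f),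
      Real.log n * ∏ i ∈ S, bal L i (d i) (d' i) n| ≤
      C * 10 ^ (2 * L + 1) * Real.exp (-(c * √(L : ℝ)))

/-- (package WAL2, 300 lines) `wal2 : S_WAL2A`.  Adaptation of `Pool.Agent.P8H55.RR.wal` (module Pool.Agent.P8H55.RR.Wal).
Proof.  Let `th n = log n` for primes, `0` otherwise, and `t n = th n - (5/2) 1[(n,10) = 1]`; by `S_ZERO` the sum is that of `t n F(n)`,
`F(n) = 1[dig 0 = e] 1[dig 2L = f] prod bal`.  Write `bal = (A - 1/10)(B - 1/10) + (A - 1/10)/10 + (B - 1/10)/10`, `A = 1[dig n i = d i]`,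
`B = 1[dig n (2 L - i) = d' i]`: `3^|S|` products of balanced digit functions at the places of a set `V` of places, `V` nonempty, `V` in `[1, 2 L)`, `|V| <= 2 |S|`, times
`1[dig 0 = e] 1[dig 2L = f]`, with coefficients at most `1`.  For each product proceed as in `wal`: approximate every factor by the polynomials of `S_DIG` with
`H = floor (exp (c0 sqrt L))` (all bounded by `1`; the weights `|t n|` are at most `3 (2 L + 1) + 3`, so the error is at most `(|V| + 2) C (2L+1) N / H * 10 L`), expand, and use `S_EXP2` with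
`U` = `V` and `{0, 2 L}` for each frequency vector; `sum over n < N of t n e(n al) = TH (N - 1) al` (or `TH N al`: `N` is neither prime nor prime to `10`).
`prod sum |c_i| <= (C log H)^|U| <= exp(4 c sqrt L)` and `3^|S|` are absorbed by a small `c`. -/
def S_WAL2A : Prop := S_EXP2 → S_DIG → S_ZERO → S_WAL2

/-- the pairs of digits -/
abbrev Om : Type := Fin 10 × Fin 10

/-- the family `RR` of subsets with `s` elements: every point in the same number of members, spectral gap `lam` -/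
structure Gap (s : ℕ) (lam : ℝ) (RR : Finset (Finset Om)) : Prop where
  ne : RR.Nonempty
  card : ∀ R ∈ RR, R.card = s
  one : ∀ w : Om, 100 * (RR.filter (fun R => w ∈ R)).card = s * RR.card
  gap : ∀ F : Om → ℝ, ∑ w, F w = 0 →
    ∑ R ∈ RR, (∑ w ∈ R, F w) ^ 2 ≤ lam * ((s : ℝ) ^ 2 / 100) * RR.card * ∑ w, F w ^ 2

/-- (package MOM2, 300 lines) `mom2 : S_MOM2`.  The second moment over the sequences of `RR^n`.
Proof.  `de = s/100`.  `P f` = mean of `f` over `Om`, `D = 1 - P`.  For `S` a set of places let `g_S = (D on the places of S, P on the others) g`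
(the Efron-Stein decomposition: `g = sum_S g_S`; `g_S` does not depend on the places outside `S` and has mean `0` in each place of `S`; the `g_S` are orthogonal, so
`sum ||g_S||^2 = ||g||^2 <= B^2 100^n`).  Put `f_S(rho) = sum over om in prod rho_i of g_S(om)`.
(1) `f_{}` is constant, `= s^n (mean of g) = (s/100)^n sum g` (all members have `s` elements).
(2) `E f_S f_T = 0` for `S <> T`: if `i` is in `S` and not in `T`, sum over `rho_i` first: `f_T` depends on `rho_i` not at all (factor `s`), and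
`E sum_{om_i in rho_i} F(om_i) = (s/100) sum F = 0` for `F` with mean `0` (property `one`).
(3) `E f_S^2 <= (lam s^2/100)^|S| (s^2/100)^(n-|S|) ||g_S||^2`: place by place: for a place outside `S` the sum over `rho_i` is `s` times the value, and
`s^2 * |value|^2 = (s^2/100) * (sum over Om of |value|^2)`; for a place of `S` use `gap`, applied for every fixed choice of the other coordinates (the inequality `gap` for real functions
implies the one for functions with values in a Euclidean space, by adding the coordinates).  So induct on the places: replace the sums over `rho_i` by sums of squares over `Om`.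
(4) Hence the sum over `|S| > K` of `E f_S^2` is at most `lam^K (s^2/100)^n ||g||^2 <= lam^K s^(2n) B^2` (`0 <= lam <= 1`).
(5) For `1 <= |S| <= K`: `E f_S^2 <= (s^2/100)^n ||g_S||^2`, and `g_S(om) = 100^(|S|-n) sum over om' of g(om') prod_{i in S} (1[om_i = om'_i] - 1/100)`, so
`|g_S(om)| <= 100^(|S| - n) W` by the hypothesis (with `a = om`), also `||g_S||^2 = <g, g_S> <= 100^n B 100^(|S|-n) W`.  Total: `E f_S^2 <= (s^2/100)^n 100^K B W`.
There are at most `(n+1)^K` such `S`. -/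
def S_MOM2 : Prop := ∀ (n s : ℕ) (lam : ℝ) (RR : Finset (Finset Om)), 0 ≤ lam → lam ≤ 1 → Gap s lam RR →
  ∀ (g : (Fin n → Om) → ℝ) (K : ℕ) (B W : ℝ), 0 ≤ B → 0 ≤ W → (∀ w, |g w| ≤ B) →
  (∀ S : Finset (Fin n), S.Nonempty → S.card ≤ K → ∀ a : Fin n → Om,
    |∑ w, g w * ∏ i ∈ S, ((if w i = a i then (1 : ℝ) else 0) - 1 / 100)| ≤ W) →
  ∑ r ∈ Fintype.piFinset (fun _ : Fin n => RR),
    ((∑ w ∈ Fintype.piFinset r, g w) - ((s : ℝ) / 100) ^ n * ∑ w, g w) ^ 2 ≤
    (RR.card : ℝ) ^ n * (lam ^ K * (s : ℝ) ^ (2 * n) * B ^ 2 + ((n + 1) * 10000) ^ K * (((s : ℝ) ^ 2 / 100) ^ n * (B * W)))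

/-- (package PNT2, 60 lines) `pnt2 : S_PNT2A`.
Proof.  `S_APX (1/2)` with `K = 1`, `a = e`, at `x = (f + 1) 10^(2L) - 1` and `x = f 10^(2L) - 1`; `dig n 0 = e` iff `n = e mod 10`, `dig n (2 L) = f` iff
`f 10^(2L) <= n < (f+1) 10^(2L)` for `n < 10^(2L+1)`; `phi(10) = 4`. -/
def S_PNT2 : Prop := ∃ c C : ℝ, 0 < c ∧ 0 < C ∧ ∀ L e f : ℕ, 1 ≤ L → e ∈ ({1, 3, 7, 9} : Finset ℕ) → 1 ≤ f → f ≤ 9 →
  |∑ n ∈ (range (10 ^ (2 * L + 1))).filter (fun n => n.Prime ∧ dig n 0 = e ∧ dig n (2 * L) = f), Real.log n -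
    10 ^ (2 * L) / 4| ≤ C * 10 ^ (2 * L) * Real.exp (-(c * √(L : ℝ)))

/-- see `S_PNT2` -/
def S_PNT2A : Prop := AR.S_APX (1 / 2) → S_PNT2

end Pool.Agent.P8H18.DS
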