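import Pool.Agent.P8H18.RR.Stm3

/-!
# Project DS, one more package: connected families have a spectral gap
-/

set_option autoImplicit false

namespace Pool.Agent.P8H18.DS

open Finset

/-- (package CON, 120 lines) `con : S_CON`.
Proof.  Field `one`: all points are in `d` members, and `100 d = sum over w of #{R : w in R} = sum over R of |R| = s |RR|`.
`s >= 1`: otherwise `A = {w0}` contradicts the last hypothesis.
Field `gap`: for `F : Om -> R` let `D F = sum over R in RR, w in R, w' in R of (F w - F w')^2`.  Then `sum_R (sum_{w in R} F w)^2 =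
s d sum F^2 - D F / 2` (for each `R`: `sum_{w, w' in R} (F w - F w')^2 = 2 s sum_{w in R} F w^2 - 2 (sum_{w in R} F w)^2`), and `s d = s^2 |RR| / 100`.
The set of the `F` with `sum F = 0`, `sum F^2 = 1` is compact and nonempty, `D` is continuous, so it has a minimum `D0` there, `D0 > 0`: `D F = 0` means that `F` is constant on
each member of `RR`, so for each value `t` of `F` the set `A = {w : F w = t}` contains or is disjoint from each member, so `A` = everything, `F` constant, so `F = 0`.
By homogeneity `D F >= D0 sum F^2` for all `F` with `sum F = 0`; `lam = max 0 (1 - D0 / (2 s d))`. -/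
def S_CON : Prop := ∀ (s : ℕ) (RR : Finset (Finset Om)), RR.Nonempty → (∀ R ∈ RR, R.card = s) →
  (∀ w w' : Om, (RR.filter (fun R => w ∈ R)).card = (RR.filter (fun R => w' ∈ R)).card) →
  (∀ A : Finset Om, (∀ R ∈ RR, R ⊆ A ∨ Disjoint R A) → A = ∅ ∨ A = univ) →
  ∃ lam : ℝ, 0 ≤ lam ∧ lam < 1 ∧ Gap s lam RR

end Pool.Agent.P8H18.DS
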