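import Pool.Agent.P8H18.RR.Stm
import Pool.Agent.P8H13.GK.Zero
import Pool.Agent.P8H13.GK.PXb

/-!
# Project RR, the L-function part: packages REG, PXC, PSI

Build on top of the project GK of helper13 (`Pool.Agent.P8H13.GK.Zero`, `PXb`, `Sharp`).
-/

set_option autoImplicit false

namespace Pool.Agent.P8H18.RR

open Finset
open Pool.Agent.W66 Pool.Agent.W66L

/-- the classical region at the scale `R` for one character -/
def RegC (c C R : ℝ) (Q : ℕ) [NeZero Q] (χ : DirichletCharacter ℂ Q) : Prop :=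
  ∀ z : ℂ, 1 - c / R ≤ z.re → z.re ≤ 2 → |z.im| ≤ Real.exp R → χ.LFunction z ≠ 0 ∧ ‖DX χ z‖ ≤ C * R ^ 2

/-- (package REG, 150 lines) `reg : S_REG10`.  The moduli `10^j` have no exceptional zeros.
Proof.  Copy the proof of `Pool.Agent.P8H13.GK.region` (module Pool.Agent.P8H13.GK.Zero); there the hypothesis on `l` is only
used through `good_real` (no real zero `beta > 1 - ca / l` of a real nonprincipal character).  Here replace `good_real` by:
let `chi` be a real nonprincipal character mod `10^j`.  If `j <= 3` there are finitely many such characters.  If `j > 3`, then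
`chi = changeLevel chi0` with a real nonprincipal character `chi0` mod `1000` (or mod `40`): every unit
`n = 1 mod 1000` of `Z/10^j` is a square, so `chi(n) = 1` and `chi` factors through mod `1000`
(`DirichletCharacter.factorsThrough_iff_ker_unitsMap`; squares: `n = 1 mod 8` is a square mod `2^j`, `n = 1 mod 5` is a square
mod `5^j`; slicker: `u -> u^2` is injective with values in the same group on the group of units `= 1 mod 125` of
`Z/5^j`, of odd order; or, uniformly: the kernel of `(Z/10^j)^* -> (Z/1000)^*`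
has `10^(j-3)` elements and it is enough that each `1 + 1000 t` is a square: Hensel by induction: if
`y^2 = n mod 2 * 10^k`-type lifting).  By `DirichletCharacter.LFunction_changeLevel` the zeros of `L(s, chi)` with
`s` near `1` are those of `L(s, chi0)` (the Euler factors `1 - chi0(p) p^(-s)` do not vanish for `re s > 0`).  There are finitely
many `chi0`, `L(1, chi0) <> 0` (`DirichletCharacter.LFunction_apply_one_ne_zero`) and continuity give `delta > 0` such that
`L(beta, chi0) <> 0` for real `beta > 1 - delta` (for `beta > 1` nonvanishing is known too); take `l0 >= ca / delta`. -/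
def S_REG10 : Prop := ∃ c C l0 : ℝ, 0 < c ∧ c ≤ 1 / 8 ∧ 0 < C ∧ 4 ≤ l0 ∧ ∀ l : ℝ, l0 ≤ l →
  ∀ (j : ℕ) [NeZero (10 ^ j)], (10 : ℝ) ^ j ≤ Real.exp l → ∀ χ : DirichletCharacter ℂ (10 ^ j), χ ≠ 1 →
    RegC c C l (10 ^ j) χ

/-- (package PXC, 10 changed lines) `pxc : S_PXC`.
Proof.  Copy the proof of `Pool.Agent.P8H13.GK.PXR_bound` (module Pool.Agent.P8H13.GK.PXb): it uses its hypothesis
`hReg : Reg c C l` only through `have hzf := hReg Q hQ chi hchi`, which is now the hypothesis `RegC`. -/
def S_PXC : Prop := ∀ c C : ℝ, 0 < c → c ≤ 1 / 8 → 0 < C → ∃ C1 : ℝ, 0 < C1 ∧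
  ∀ ℓ : ℝ, 1 ≤ ℓ → ∀ (Q : ℕ) [NeZero Q], (Q : ℝ) ≤ Real.exp ℓ →
  ∀ (χ : DirichletCharacter ℂ Q), χ ≠ 1 → RegC c C ℓ Q χ →
  ∀ u ξ₀ R : ℝ, 1 ≤ u → 1 ≤ R → |ξ₀| + R ≤ Real.exp ℓ →
    ‖PX χ u ξ₀‖ ≤ C1 * (ℓ ^ 2 * Real.exp (-(c * u / ℓ)) + ℓ ^ 2 / R ^ 2 + u / R)

/-- (package PSI, 200 lines) `psi : S_PSIA`.
Proof.  Let `c1, C1` be the constants of the region and of `S_PXC`, `N = 10^D`, `l = sqrt D` (the scale; assume `l >= l0`, else
use the trivial bound `x (1 + log x)` and enlarge `C`), `10^j <= exp(c l) <= exp l`.  Let `h = exp(-l / 4)`, `R = exp(l/2)`.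
(1) Windows: for `z` with `exp z` between `sqrt N` and `N`, the smoothed sum
`T(z) = sum_n chi(n) Lambda(n)/n tri h (z - log n)` (`tri h` the triangle of width `h` and height `1/h`, `Pool.Agent.P8H13.GK`:
`tri`, `boxC`, `TG v h N z` in Sharp.lean, with `v n = chi n`) is
`T(z) = sum_{k = -1, 0, 1} int F(tri h)(xi) e(xi z) PX chi (z + k) (2 pi xi) d xi`, because
`hat(t - 1) + hat t + hat (t + 1) = 1` for `|t| <= 1` and `PX chi u xi0 = sum chi(n) Lambda(n) n^(-1 - i xi0) hat(u - log n)`.
(2) `|F(tri h)(xi)| <= min(1, 1/(pi h xi)^2)`; for `|2 pi xi| <= exp(l/2)` use `S_PXC` with `u = z + k >= D/2` (as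
`log(sqrt N) = 1.15 D`): the first term is `l^2 exp(-c1 D / (2 l)) = l^2 exp(-c1 l / 2)`, the others are at most
`l^2 exp(-l) + 3 D exp(-l/2)`; the integral over `xi` loses at most `1/h`: choose `h = exp(-c2 l)` with
`c2 = min(c1, 1) / 8`.  For `|2 pi xi| > exp(l/2)` use the trivial bound `|PX| <= C` (or `<= C D`) and the decay of `F(tri h)`.
Hence `|T(z)| <= C exp(-c3 l)` for `1/2 log N <= z <= log N`.
(3) `Pool.Agent.P8H13.GK.sharp_one` with `lo = floor(sqrt N)`-ish, `hi = x + 1`: the sum over `lo <= n <= x` is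
`int exp(z) T(z) dz + O(h N log N)`; the sum over `n < lo` is trivial; `x <= sqrt N` is trivial.
Everything is `<= C N exp(-c l)`.
(Any other way from `RegC` to `S_PSI` is as good, e.g. the theorems of the project H379R2/SW on the Perron formula with the smooth
kernel.) -/
def S_PSIA : Prop := S_REG10 → S_PXC → S_PSI

end Pool.Agent.P8H18.RR
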